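import Mathlib
import Pool.Agent.RDF.Core
import Pool.Agent.RDF.AuxP

set_option autoImplicit false

/-!
# The quadratic form for polynomials

`F` is a polynomial of degree `d` with integral coefficients and leading coefficient a unit over an
algebraically closed field with a nonarchimedean absolute value, `b` is integral and not zero, and
`f = F / b`.
-/

namespace Pool.Agent.QPol

open Polynomial Pool.Agent.RDF

section

variable {L : Type*} [Field L]

/-- the map `x ↦ F(x) / b` -/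
noncomputable def qf (F : L[X]) (b : L) (x : L) : L := F.eval x / b

variable (abv : AbsoluteValue L ℝ)

/-- the kernel `min (R, -log |x - y|)` -/
noncomputable def kk (R : ℝ) (x y : L) : ℝ := kr abv R (x, 1) (y, 1)

theorem wedge_one (x y : L) : wedge (x, (1 : L)) (y, 1) = x - y := by
  simp [wedge]

theorem nrm_one (x : L) (hx : abv x ≤ 1) : nrm abv (x, (1 : L)) = 1 := by
  rw [nrm]
  simp [hx]

theorem nrm_eq_max (x : L) : nrm abv (x, (1 : L)) = max (abv x) 1 := by
  rw [nrm]
  simp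

theorem kk_le (R : ℝ) (x y : L) : kk abv R x y ≤ R := kr_le abv R _ _

theorem kk_nonneg (hna : IsNonarchimedean abv) (R : ℝ) (hR : 0 ≤ R) {x y : L}
    (hx : abv x ≤ 1) (hy : abv y ≤ 1) : 0 ≤ kk abv R x y :=
  kr_nonneg abv hna R hR (nrm_one abv x hx) (nrm_one abv y hy)

theorem kk_le_log (R : ℝ) {x y : L} (h : x ≠ y) : kk abv R x y ≤ -Real.log (abv (x - y)) := by
  have h1 := kr_le_log abv R (p := (x, (1 : L))) (q := (y, 1)) (by
    rw [wedge_one]
    exact sub_ne_zero.mpr h)
  rwa [wedge_one] at h1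

theorem kk_eq_log (R : ℝ) {x y : L} (h : x ≠ y) (hR : -Real.log (abv (x - y)) ≤ R) :
    kk abv R x y = -Real.log (abv (x - y)) := by
  have h1 := kr_eq_log abv R (p := (x, (1 : L))) (q := (y, 1)) (by
    rw [wedge_one]
    exact sub_ne_zero.mpr h) (by rwa [wedge_one])
  rwa [wedge_one] at h1

theorem kk_eq_zero (R : ℝ) (hR : 0 ≤ R) {x y : L} (h : abv (x - y) = 1) : kk abv R x y = 0 := by
  have h0 : x ≠ y := by
    rintro rfl
    rw [sub_self, map_zero] at h
    exact zero_ne_one h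
  rw [kk_eq_log abv R h0 (by rw [h, Real.log_one, neg_zero]; exact hR), h, Real.log_one, neg_zero]

theorem kk_comm (R : ℝ) (x y : L) : kk abv R x y = kk abv R y x := kr_comm abv R _ _

/-- the exponent of the leading coefficient of the iterate -/
noncomputable def lamM (d m : ℕ) (β : ℝ) : ℝ := β * ∑ i ∈ Finset.range m, (d : ℝ) ^ i

theorem lamM_succ (d m : ℕ) (β : ℝ) : lamM d (m + 1) β = lamM d m β + β * (d : ℝ) ^ m := by
  rw [lamM, lamM, Finset.sum_range_succ, mul_add]

variable {abv}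

/-- outside the unit disc -/
theorem qf_out (hna : IsNonarchimedean abv) {d : ℕ} (hd : 1 ≤ d) {F : L[X]}
    (hF : F.natDegree = d) (hlead : abv F.leadingCoeff = 1) (hc : ∀ i, abv (F.coeff i) ≤ 1)
    {b : L} (hb : b ≠ 0) (hb1 : abv b ≤ 1) {x : L} (hx : 1 < abv x) :
    abv (qf F b x) = abv x ^ d / abv b ∧ 1 < abv (qf F b x) := by
  have hbp : 0 < abv b := abv.pos hb
  have h1 : abv (F.eval x) = abv x ^ d := by
    have h2 : F.eval x = F.leadingCoeff * x ^ d + F.eraseLead.eval x := by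
      conv_lhs => rw [← F.eraseLead_add_C_mul_X_pow]
      rw [eval_add, eval_mul, eval_C, eval_pow, eval_X, hF]
      ring
    have h3 : abv (F.eraseLead.eval x) < abv x ^ d := by
      rw [eval_eq_sum_range]
      have hlt : ∀ i ∈ Finset.range (F.eraseLead.natDegree + 1),
          abv (F.eraseLead.coeff i * x ^ i) ≤ abv x ^ (d - 1) := by
        intro i _
        rw [map_mul, map_pow]
        by_cases hi : i ≤ d - 1
        · have h4 : abv (F.eraseLead.coeff i) ≤ 1 := by
            rw [eraseLead_coeff]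
            split_ifs
            · rw [map_zero]
              exact zero_le_one
            · exact hc i
          calc abv (F.eraseLead.coeff i) * abv x ^ i ≤ 1 * abv x ^ (d - 1) :=
                mul_le_mul h4 (pow_le_pow_right₀ hx.le hi) (pow_nonneg (abv.nonneg _) _)
                  zero_le_one
            _ = _ := one_mul _
        · have h4 : F.eraseLead.coeff i = 0 := by
            rw [eraseLead_coeff]
            split_ifs with h5
            · rfl
            · apply coeff_eq_zero_of_natDegree_lt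
              omega
          rw [h4, map_zero, zero_mul]
          positivity
      refine lt_of_le_of_lt (sum_le_of_na abv hna _ _ _ (by positivity) hlt) ?_
      exact pow_lt_pow_right₀ hx (by omega)
    have h6 : abv (F.leadingCoeff * x ^ d) = abv x ^ d := by
      rw [map_mul, hlead, one_mul, map_pow]
    rw [h2]
    have h7 := hna.add_eq_left_of_lt (f := abv) (x := F.leadingCoeff * x ^ d)
      (y := F.eraseLead.eval x) (by rw [h6]; exact h3)
    rw [h7, h6]
  have h8 : abv (qf F b x) = abv x ^ d / abv b := by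
    rw [qf, map_div₀, h1]
  refine ⟨h8, ?_⟩
  rw [h8, lt_div_iff₀ hbp, one_mul]
  exact lt_of_le_of_lt hb1 (one_lt_pow₀ hx (by omega))

/-- a polynomial as a product -/
theorem exists_prod [IsAlgClosed L] {d : ℕ} (P : L[X]) (hP : P.natDegree = d) :
    ∃ r : Fin d → L, ∀ x, abv (P.eval x) = abv P.leadingCoeff * ∏ u, abv (x - r u) := by
  have hcard : Multiset.card P.roots = d := by
    rw [← hP]
    exact (IsAlgClosed.splits P).natDegree_eq_card_roots.symm
  obtain ⟨l, hl⟩ : ∃ l : List L, (l : Multiset L) = P.roots := Quot.exists_rep _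
  have hlen : l.length = d := by
    rw [← hcard, ← hl, Multiset.coe_card]
  subst hlen
  refine ⟨fun u => l.get u, fun x => ?_⟩
  have h1 : P = C P.leadingCoeff * (P.roots.map fun a => X - C a).prod :=
    (IsAlgClosed.splits P).eq_prod_roots
  have h2 : eval x (List.map (fun a => X - C a) l).prod = (List.map (fun a => x - a) l).prod := by
    rw [← coe_evalRingHom, map_list_prod, List.map_map]
    congr 2
    funext a
    simp
  have h3 : abv (List.map (fun a => x - a) l).prod = ∏ u : Fin l.length, abv (x - l.get u) := by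
    rw [map_list_prod, List.map_map]
    exact (Fin.prod_univ_fun_getElem l (fun a => abv (x - a))).symm
  conv_lhs => rw [h1]
  rw [eval_mul, eval_C, map_mul, ← hl, Multiset.map_coe, Multiset.prod_coe, h2, h3]

/-- roots of the iterates -/
theorem exists_roots_aux [IsAlgClosed L] {d : ℕ} (hd : 1 ≤ d) {F : L[X]}
    (hF : F.natDegree = d) (hlead : abv F.leadingCoeff = 1)
    {b : L} (hb : b ≠ 0) (m : ℕ) : ∀ z : L, ∃ (ι : Type) (_ : Fintype ι) (ρ : ι → L),
      Fintype.card ι = d ^ m ∧ ∀ x, abv ((qf F b)^[m] x - z) =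
        Real.exp (lamM d m (-Real.log (abv b))) * ∏ w, abv (x - ρ w) := by
  have hbp : 0 < abv b := abv.pos hb
  have hexp : Real.exp (-Real.log (abv b)) = (abv b)⁻¹ := by
    rw [Real.exp_neg, Real.exp_log hbp]
  induction m with
  | zero =>
    intro z
    refine ⟨Unit, inferInstance, fun _ => z, by simp, fun x => ?_⟩
    simp [lamM]
  | succ m ih =>
    intro z
    obtain ⟨ι, hι, ρ, hcard, hρ⟩ := ih z
    -- the roots of `F = b c`
    have hroot : ∀ c : L, ∃ r : Fin d → L, ∀ x, abv (qf F b x - c) =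
        (abv b)⁻¹ * ∏ u, abv (x - r u) := by
      intro c
      have hdeg : (F - C (b * c)).natDegree = d := by
        rw [natDegree_sub_C, hF]
      have hl : (F - C (b * c)).leadingCoeff = F.leadingCoeff := by
        rw [leadingCoeff, hdeg, coeff_sub, coeff_C_of_ne_zero (by omega), sub_zero, leadingCoeff,
          hF]
      obtain ⟨r, hr⟩ := exists_prod (abv := abv) _ hdeg
      refine ⟨r, fun x => ?_⟩
      have h1 : qf F b x - c = b⁻¹ * (F - C (b * c)).eval x := by
        rw [qf, eval_sub, eval_C]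
        field_simp
      rw [h1, map_mul, hr x, hl, hlead, one_mul, map_inv₀]
    choose r hr using hroot
    refine ⟨ι × Fin d, inferInstance, fun q => r (ρ q.1) q.2, ?_, fun x => ?_⟩
    · rw [Fintype.card_prod, hcard, Fintype.card_fin, pow_succ]
    · rw [Function.iterate_succ_apply, hρ, lamM_succ, Real.exp_add, Fintype.prod_prod_type, mul_assoc]
      congr 1
      simp only [hr]
      rw [Finset.prod_mul_distrib, Finset.prod_const, Finset.card_univ, hcard]
      congr 1
      rw [← hexp, ← Real.exp_nat_mul]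
      congr 1
      push_cast
      ring

/-- roots of the iterates -/
theorem exists_roots [IsAlgClosed L] {d : ℕ} (hd : 1 ≤ d) {F : L[X]}
    (hF : F.natDegree = d) (hlead : abv F.leadingCoeff = 1)
    {b : L} (hb : b ≠ 0) (m : ℕ) (z : L) : ∃ ρ : Fin (d ^ m) → L,
      ∀ x, abv ((qf F b)^[m] x - z) =
        Real.exp (lamM d m (-Real.log (abv b))) * ∏ w, abv (x - ρ w) := by
  obtain ⟨ι, hι, ρ, hcard, hρ⟩ := exists_roots_aux hd hF hlead hb m z
  let e := Fintype.equivFinOfCardEq hcard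
  refine ⟨fun w => ρ (e.symm w), fun x => ?_⟩
  rw [hρ x, ← Equiv.prod_comp e.symm]

/-- the size of the map -/
theorem qf_le (hna : IsNonarchimedean abv) {d : ℕ} (hd : 1 ≤ d) {F : L[X]}
    (hF : F.natDegree = d) (hlead : abv F.leadingCoeff = 1) (hc : ∀ i, abv (F.coeff i) ≤ 1)
    {b : L} (hb : b ≠ 0) (hb1 : abv b ≤ 1) (x : L) :
    Real.log (max (abv (qf F b x)) 1) ≤ d * Real.log (max (abv x) 1) - Real.log (abv b) := by
  have hbp : 0 < abv b := abv.pos hb
  have hlb : Real.log (abv b) ≤ 0 := Real.log_nonpos hbp.le hb1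
  rcases le_or_gt (abv x) 1 with hx | hx
  · rw [max_eq_right hx, Real.log_one, mul_zero, zero_sub]
    have h1 : abv (qf F b x) ≤ (abv b)⁻¹ := by
      rw [qf, map_div₀, div_eq_mul_inv]
      exact mul_le_of_le_one_left (inv_nonneg.mpr hbp.le)
        (aux_eval_le abv hna F 1 zero_le_one hc x hx)
    rw [← Real.log_inv]
    refine Real.log_le_log (lt_max_of_lt_right one_pos) (max_le h1 ?_)
    exact (one_le_inv₀ hbp).mpr hb1
  · obtain ⟨h1, h2⟩ := qf_out hna hd hF hlead hc hb hb1 hx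
    rw [max_eq_left h2.le, max_eq_left hx.le, h1, Real.log_div (pow_ne_zero _ (by linarith)) hbp.ne',
      Real.log_pow]

/-- points with a bounded image are bounded -/
theorem le_one_of_iter (hna : IsNonarchimedean abv) {d : ℕ} (hd : 1 ≤ d) {F : L[X]}
    (hF : F.natDegree = d) (hlead : abv F.leadingCoeff = 1) (hc : ∀ i, abv (F.coeff i) ≤ 1)
    {b : L} (hb : b ≠ 0) (hb1 : abv b ≤ 1) (m : ℕ) : ∀ x, abv ((qf F b)^[m] x) ≤ 1 →
    ∀ i ≤ m, abv ((qf F b)^[i] x) ≤ 1 := by
  induction m with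
  | zero =>
    intro x hx i hi
    obtain rfl : i = 0 := by omega
    exact hx
  | succ m ih =>
    intro x hx i hi
    have h1 : abv ((qf F b)^[m] x) ≤ 1 := by
      by_contra hcon
      push Not at hcon
      have h2 := (qf_out hna hd hF hlead hc hb hb1 hcon).2
      rw [← Function.iterate_succ_apply' (qf F b)] at h2
      exact absurd hx (not_le.mpr h2)
    rcases Nat.lt_or_ge i (m + 1) with h | h
    · exact ih x h1 i (by omega)
    · obtain rfl : i = m + 1 := by omega
      exact hx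

/-- Lipschitz property -/
theorem iter_close (hna : IsNonarchimedean abv) {F : L[X]}
    (hc : ∀ i, abv (F.coeff i) ≤ 1) {b : L} (hb : b ≠ 0) (hb1 : abv b ≤ 1) (m : ℕ) :
    ∀ x y : L, abv x ≤ 1 → (∀ i ≤ m, abv ((qf F b)^[i] y) ≤ 1) →
      abv (x - y) < Real.exp (-(m * -Real.log (abv b))) →
      abv ((qf F b)^[m] x - (qf F b)^[m] y) < 1 := by
  have hbp : 0 < abv b := abv.pos hb
  have hlb : Real.log (abv b) ≤ 0 := Real.log_nonpos hbp.le hb1
  induction m with
  | zero =>
    intro x y _ _ h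
    simpa using h
  | succ m ih =>
    intro x y hx hy h
    rw [Function.iterate_succ_apply, Function.iterate_succ_apply]
    have hy0 := hy 0 (Nat.zero_le _)
    have hy1 := hy 1 (by omega)
    simp only [Function.iterate_zero, id, Function.iterate_one] at hy0 hy1
    have h1 : abv (qf F b x - qf F b y) ≤ abv (x - y) * (abv b)⁻¹ := by
      have h2 : qf F b x - qf F b y = (F.eval x - F.eval y) * b⁻¹ := by
        rw [qf, qf, ← sub_div, div_eq_mul_inv]
      rw [h2, map_mul, map_inv₀]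
      exact mul_le_mul_of_nonneg_right (aux_eval_sub_le abv hna F hc x y hx hy0)
        (inv_nonneg.mpr hbp.le)
    have h3 : abv (qf F b x - qf F b y) < Real.exp (-(m * -Real.log (abv b))) := by
      refine lt_of_le_of_lt h1 ?_
      rw [← div_eq_mul_inv, div_lt_iff₀ hbp]
      refine lt_of_lt_of_eq h ?_
      conv_rhs => rw [← Real.exp_log hbp, ← Real.exp_add]
      congr 1
      rw [Real.exp_log hbp]
      push_cast
      ring
    refine ih _ _ ?_ ?_ h3
    · have h4 : abv (qf F b x - qf F b y) ≤ 1 := by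
        refine h3.le.trans ?_
        rw [Real.exp_le_one_iff, neg_nonpos]
        exact mul_nonneg (Nat.cast_nonneg _) (by linarith)
      have h5 := hna (qf F b x - qf F b y) (qf F b y)
      rw [sub_add_cancel] at h5
      exact h5.trans (max_le h4 hy1)
    · intro i hi
      have := hy (i + 1) (by omega)
      rwa [Function.iterate_succ_apply] at this

/-- the sum of the kernel over the roots of an iterate -/
theorem sum_kk (hna : IsNonarchimedean abv) {d : ℕ} (hd : 1 ≤ d) {F : L[X]}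
    (hF : F.natDegree = d) (hlead : abv F.leadingCoeff = 1) (hc : ∀ i, abv (F.coeff i) ≤ 1)
    {b : L} (hb : b ≠ 0) (hb1 : abv b ≤ 1) (m : ℕ) (z : L) (hz : abv z ≤ 1)
    (ρ : Fin (d ^ m) → L) (hρ : ∀ x, abv ((qf F b)^[m] x - z) =
        Real.exp (lamM d m (-Real.log (abv b))) * ∏ w, abv (x - ρ w)) (x : L) (hx : abv x ≤ 1)
    (hxz : abv ((qf F b)^[m] x - z) = max (abv ((qf F b)^[m] x)) 1) :
    ∑ w, kk abv (m * -Real.log (abv b)) x (ρ w) =
      lamM d m (-Real.log (abv b)) - Real.log (max (abv ((qf F b)^[m] x)) 1) := by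
  have hr : ∀ w, (qf F b)^[m] (ρ w) = z := by
    intro w
    rw [← sub_eq_zero, ← abv.eq_zero, hρ]
    apply mul_eq_zero_of_right
    refine Finset.prod_eq_zero (Finset.mem_univ w) ?_
    rw [sub_self, map_zero]
  have hpos : 0 < abv ((qf F b)^[m] x - z) := by
    rw [hxz]
    exact lt_max_of_lt_right one_pos
  have hne : ∀ w, x ≠ ρ w := by
    intro w h
    rw [h, hr w, sub_self, map_zero] at hpos
    exact lt_irrefl _ hpos
  have htr : ∀ w, -Real.log (abv (x - ρ w)) ≤ m * -Real.log (abv b) := by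
    intro w
    by_contra hcon
    push Not at hcon
    have hp : 0 < abv (x - ρ w) := abv.pos (sub_ne_zero.mpr (hne w))
    have h1 : abv (x - ρ w) < Real.exp (-(m * -Real.log (abv b))) := by
      rw [← Real.log_lt_iff_lt_exp hp]
      linarith
    have h2 := iter_close hna hc hb hb1 m x (ρ w) hx
      (le_one_of_iter hna hd hF hlead hc hb hb1 m (ρ w) (by rw [hr w]; exact hz)) h1
    rw [hr w, hxz] at h2
    exact absurd (le_max_right _ _) (not_le.mpr h2)
  have h1 : ∀ w, kk abv (m * -Real.log (abv b)) x (ρ w) = -Real.log (abv (x - ρ w)) :=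
    fun w => kk_eq_log abv _ (hne w) (htr w)
  rw [Finset.sum_congr rfl fun w _ => h1 w, Finset.sum_neg_distrib,
    ← Real.log_prod fun w _ => (abv.pos (sub_ne_zero.mpr (hne w))).ne', ← hxz, hρ x,
    Real.log_mul (Real.exp_ne_zero _), Real.log_exp]
  · ring
  · intro h0
    rw [hρ x, h0, mul_zero] at hpos
    exact lt_irrefl _ hpos

/-- the number `θ`-form of the core inequality, with `B` generic points -/
theorem core_B [IsAlgClosed L] (hna : IsNonarchimedean abv)
    (gen : ∀ N : ℕ, ∃ t : Fin N → L, (∀ i, abv (t i) ≤ 1) ∧ ∀ i j, i ≠ j → abv (t i - t j) = 1)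
    {d : ℕ} (hd : 1 ≤ d) {F : L[X]}
    (hF : F.natDegree = d) (hlead : abv F.leadingCoeff = 1) (hc : ∀ i, abv (F.coeff i) ≤ 1)
    {b : L} (hb : b ≠ 0) (hb1 : abv b ≤ 1) (m : ℕ) {T : ℕ} (x : Fin T → L)
    (hinj : Function.Injective x) (hx : ∀ i, abv (x i) ≤ 1)
    (hxm : ∀ i, abv ((qf F b)^[m] (x i)) ≤ 1)
    {J : Type} [Fintype J] (y : J → L) (hy : ∀ j, abv (y j) ≤ 1) (c : J → ℝ)
    (hc0 : ∑ j, c j = 0) (θ : ℝ) (B : ℕ) (hB : 0 < B) :
    ∑ i, ∑ j ∈ Finset.univ.erase i, Real.log (abv (x i - x j)) ≤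
      T * (m * -Real.log (abv b)) + T ^ 2 * (m * -Real.log (abv b)) / B -
      T ^ 2 * lamM d m (-Real.log (abv b)) / (d : ℝ) ^ m +
      2 * θ * T * (∑ i, ∑ j, c j * kk abv (m * -Real.log (abv b)) (x i) (y j)) +
      2 * θ * T ^ 2 / (d : ℝ) ^ m *
        (∑ j, c j * Real.log (max (abv ((qf F b)^[m] (y j))) 1)) +
      θ ^ 2 * T ^ 2 * (∑ i, ∑ j, c i * c j * kk abv (m * -Real.log (abv b)) (y i) (y j)) := by
  classical
  set f := qf F b with hf
  set β := -Real.log (abv b) with hβ
  have hbp : 0 < abv b := abv.pos hb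
  have hβ0 : 0 ≤ β := by
    rw [hβ, neg_nonneg]
    exact Real.log_nonpos hbp.le hb1
  set R : ℝ := m * β with hR
  have hR0 : 0 ≤ R := mul_nonneg (Nat.cast_nonneg _) hβ0
  set Lam := lamM d m β with hLam
  have hM : (0 : ℝ) < (d : ℝ) ^ m := pow_pos (by exact_mod_cast hd) m
  have hBr : (0 : ℝ) < B := by exact_mod_cast hB
  -- the generic points
  obtain ⟨t, ht1, ht2, ht3⟩ := exists_gen_points abv hna gen
    (Sum.elim (fun i => (f^[m] (x i), (1 : L))) (fun j => (f^[m] (y j), (1 : L)))) B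
  have hgx : ∀ a i, abv (f^[m] (x i) - t a) = max (abv (f^[m] (x i))) 1 := by
    intro a i
    have h := ht3 a (Sum.inl i)
    simp only [Sum.elim_inl] at h
    rwa [wedge_one, nrm_eq_max] at h
  have hgy : ∀ a j, abv (f^[m] (y j) - t a) = max (abv (f^[m] (y j))) 1 := by
    intro a i
    have h := ht3 a (Sum.inr i)
    simp only [Sum.elim_inr] at h
    rwa [wedge_one, nrm_eq_max] at h
  choose ρ hρ using fun a => exists_roots hd hF hlead hb m (t a)
  have hr : ∀ a w, f^[m] (ρ a w) = t a := by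
    intro a w
    rw [← sub_eq_zero, ← abv.eq_zero, hρ]
    apply mul_eq_zero_of_right
    refine Finset.prod_eq_zero (Finset.mem_univ w) ?_
    rw [sub_self, map_zero]
  have hρ1 : ∀ a w, abv (ρ a w) ≤ 1 := fun a w =>
    le_one_of_iter hna hd hF hlead hc hb hb1 m (ρ a w) (by rw [hr]; exact ht1 a) 0 (Nat.zero_le _)
  -- the weights
  set P : Fin T ⊕ (Fin B × Fin (d ^ m)) ⊕ J → L × L :=
    Sum.elim (fun i => (x i, 1)) (Sum.elim (fun q => (ρ q.1 q.2, 1)) (fun j => (y j, 1))) with hP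
  set g : Fin T ⊕ (Fin B × Fin (d ^ m)) ⊕ J → ℝ :=
    Sum.elim (fun _ => 1) (Sum.elim (fun _ => -(T / (B * (d : ℝ) ^ m))) (fun j => θ * T * c j))
    with hg
  have hP1 : ∀ q, nrm abv (P q) = 1 := by
    rintro (i | q | l)
    · exact nrm_one abv _ (hx i)
    · exact nrm_one abv _ (hρ1 _ _)
    · exact nrm_one abv _ (hy l)
  have hq := kr_psd abv hna R hR0 P hP1 g
  rw [blocks (fun p q => g p * g q * kr abv R (P p) (P q)) (fun p q => by
    rw [kr_comm, mul_comm (g p)])] at hq
  simp only [hP, hg, Sum.elim_inl, Sum.elim_inr] at hq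
  change 0 ≤ (∑ i, ∑ j, (1 : ℝ) * 1 * kk abv R (x i) (x j)) +
      (∑ i : Fin B × Fin (d ^ m), ∑ j : Fin B × Fin (d ^ m), -(T / (B * (d : ℝ) ^ m)) *
        -(T / (B * (d : ℝ) ^ m)) * kk abv R (ρ i.1 i.2) (ρ j.1 j.2)) +
      (∑ i, ∑ j, θ * T * c i * (θ * T * c j) * kk abv R (y i) (y j)) +
      2 * (∑ i, ∑ j : Fin B × Fin (d ^ m), 1 * -(T / (B * (d : ℝ) ^ m)) *
        kk abv R (x i) (ρ j.1 j.2)) +
      2 * (∑ i, ∑ j, 1 * (θ * T * c j) * kk abv R (x i) (y j)) +
      2 * (∑ i, ∑ j : Fin B × Fin (d ^ m), θ * T * c i * -(T / (B * (d : ℝ) ^ m)) *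
        kk abv R (y i) (ρ j.1 j.2)) at hq
  -- block 1
  have b1 : ∑ i, ∑ j, (1 : ℝ) * 1 * kk abv R (x i) (x j) ≤
      T * R - ∑ i, ∑ j ∈ Finset.univ.erase i, Real.log (abv (x i - x j)) := by
    have : ∀ i, ∑ j, (1 : ℝ) * 1 * kk abv R (x i) (x j) ≤
        R + ∑ j ∈ Finset.univ.erase i, -Real.log (abv (x i - x j)) := by
      intro i
      rw [← Finset.add_sum_erase _ _ (Finset.mem_univ i)]
      refine add_le_add ?_ (Finset.sum_le_sum fun j hj => ?_)
      · rw [one_mul, one_mul]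
        exact kk_le abv R _ _
      · rw [one_mul, one_mul]
        exact kk_le_log abv R fun h => (Finset.ne_of_mem_erase hj).symm (hinj h)
    refine (Finset.sum_le_sum fun i _ => this i).trans_eq ?_
    rw [Finset.sum_add_distrib, Finset.sum_const, Finset.card_univ, Fintype.card_fin, nsmul_eq_mul]
    simp only [Finset.sum_neg_distrib]
    ring
  -- block 2
  have hcardM : (Fintype.card (Fin (d ^ m)) : ℝ) = (d : ℝ) ^ m := by
    rw [Fintype.card_fin]
    push_cast
    rfl
  have hLam0 : 0 ≤ Lam := by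
    rw [hLam, lamM]
    exact mul_nonneg hβ0 (Finset.sum_nonneg fun i _ => by positivity)
  have b2 : ∑ i : Fin B × Fin (d ^ m), ∑ j : Fin B × Fin (d ^ m), -(T / (B * (d : ℝ) ^ m)) *
        -(T / (B * (d : ℝ) ^ m)) * kk abv R (ρ i.1 i.2) (ρ j.1 j.2) ≤
      T ^ 2 * R / B + T ^ 2 * Lam / (d : ℝ) ^ m := by
    have h1 : ∀ a w, ∑ j : Fin B × Fin (d ^ m), kk abv R (ρ a w) (ρ j.1 j.2) ≤
        (d : ℝ) ^ m * R + B * Lam := by
      intro a w
      rw [Fintype.sum_prod_type, ← Finset.add_sum_erase _ _ (Finset.mem_univ a)]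
      refine add_le_add ?_ ?_
      · refine (Finset.sum_le_sum fun w' _ => kk_le abv R _ _).trans_eq ?_
        rw [Finset.sum_const, Finset.card_univ, nsmul_eq_mul, hcardM]
      · have h2 : ∀ a' ∈ Finset.univ.erase a, ∑ w', kk abv R (ρ a w) (ρ a' w') = Lam := by
          intro a' ha'
          have h3 : abv (f^[m] (ρ a w) - t a') = max (abv (f^[m] (ρ a w))) 1 := by
            rw [hr, ht2 a a' (Finset.ne_of_mem_erase ha').symm, max_eq_right (ht1 a)]
          have h4 := sum_kk hna hd hF hlead hc hb hb1 m (t a') (ht1 a') (ρ a') (hρ a') (ρ a w)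
            (hρ1 a w) h3
          rw [← hf, hr, max_eq_right (ht1 a), Real.log_one, sub_zero] at h4
          exact h4
        rw [Finset.sum_congr rfl h2, Finset.sum_const, nsmul_eq_mul]
        refine mul_le_mul_of_nonneg_right ?_ hLam0
        have : (Finset.univ.erase a).card ≤ B := by
          refine (Finset.card_erase_le).trans ?_
          rw [Finset.card_univ, Fintype.card_fin]
        exact_mod_cast this
    have h2 : ∑ i : Fin B × Fin (d ^ m), ∑ j : Fin B × Fin (d ^ m), -(T / (B * (d : ℝ) ^ m)) *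
        -(T / (B * (d : ℝ) ^ m)) * kk abv R (ρ i.1 i.2) (ρ j.1 j.2) =
        (T / (B * (d : ℝ) ^ m)) ^ 2 * ∑ i : Fin B × Fin (d ^ m), ∑ j : Fin B × Fin (d ^ m),
          kk abv R (ρ i.1 i.2) (ρ j.1 j.2) := by
      rw [Finset.mul_sum]
      refine Finset.sum_congr rfl fun i _ => ?_
      rw [Finset.mul_sum]
      refine Finset.sum_congr rfl fun j _ => ?_
      ring
    rw [h2]
    have h3 : ∑ i : Fin B × Fin (d ^ m), ∑ j : Fin B × Fin (d ^ m),
        kk abv R (ρ i.1 i.2) (ρ j.1 j.2) ≤ (B * (d : ℝ) ^ m) * ((d : ℝ) ^ m * R + B * Lam) := by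
      refine (Finset.sum_le_sum fun i _ => h1 i.1 i.2).trans_eq ?_
      rw [Finset.sum_const, Finset.card_univ, Fintype.card_prod, nsmul_eq_mul]
      push_cast
      rw [hcardM, Fintype.card_fin]
    refine (mul_le_mul_of_nonneg_left h3 (sq_nonneg _)).trans_eq ?_
    field_simp
  -- block 4
  have b4 : ∑ i, ∑ j : Fin B × Fin (d ^ m), 1 * -(T / (B * (d : ℝ) ^ m)) *
        kk abv R (x i) (ρ j.1 j.2) = -(T ^ 2 * Lam / (d : ℝ) ^ m) := by
    have h1 : ∀ i, ∑ j : Fin B × Fin (d ^ m), 1 * -(T / (B * (d : ℝ) ^ m)) *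
        kk abv R (x i) (ρ j.1 j.2) = -(T * Lam / (d : ℝ) ^ m) := by
      intro i
      rw [Fintype.sum_prod_type]
      have h2 : ∀ a, ∑ w, 1 * -(T / (B * (d : ℝ) ^ m)) * kk abv R (x i) (ρ a w) =
          -(T / (B * (d : ℝ) ^ m)) * Lam := by
        intro a
        rw [← Finset.mul_sum, one_mul]
        congr 1
        have h4 := sum_kk hna hd hF hlead hc hb hb1 m (t a) (ht1 a) (ρ a) (hρ a) (x i)
            (hx i) (hgx a i)
        rw [← hf, max_eq_right (hxm i), Real.log_one, sub_zero] at h4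
        exact h4
      rw [Finset.sum_congr rfl fun a _ => h2 a, Finset.sum_const, Finset.card_univ,
        Fintype.card_fin, nsmul_eq_mul]
      field_simp
    rw [Finset.sum_congr rfl fun i _ => h1 i, Finset.sum_const, Finset.card_univ,
      Fintype.card_fin, nsmul_eq_mul]
    field_simp
  -- block 6
  have b6 : ∑ i, ∑ j : Fin B × Fin (d ^ m), θ * T * c i * -(T / (B * (d : ℝ) ^ m)) *
        kk abv R (y i) (ρ j.1 j.2) =
      θ * T ^ 2 / (d : ℝ) ^ m * (∑ j, c j * Real.log (max (abv (f^[m] (y j))) 1)) := by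
    have h1 : ∀ i, ∑ j : Fin B × Fin (d ^ m), θ * T * c i * -(T / (B * (d : ℝ) ^ m)) *
        kk abv R (y i) (ρ j.1 j.2) = θ * T ^ 2 / (d : ℝ) ^ m *
          (c i * Real.log (max (abv (f^[m] (y i))) 1)) - θ * T ^ 2 / (d : ℝ) ^ m * Lam * c i := by
      intro i
      rw [Fintype.sum_prod_type]
      have h2 : ∀ a, ∑ w, θ * T * c i * -(T / (B * (d : ℝ) ^ m)) * kk abv R (y i) (ρ a w) =
          θ * T * c i * -(T / (B * (d : ℝ) ^ m)) *
            (Lam - Real.log (max (abv (f^[m] (y i))) 1)) := by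
        intro a
        rw [← Finset.mul_sum]
        congr 1
        exact sum_kk hna hd hF hlead hc hb hb1 m (t a) (ht1 a) (ρ a) (hρ a) (y i)
            (hy i) (hgy a i)
      rw [Finset.sum_congr rfl fun a _ => h2 a, Finset.sum_const, Finset.card_univ,
        Fintype.card_fin, nsmul_eq_mul]
      field_simp
      ring
    rw [Finset.sum_congr rfl fun i _ => h1 i, Finset.sum_sub_distrib, ← Finset.mul_sum,
      ← Finset.mul_sum, hc0, mul_zero, sub_zero]
  -- block 3 and 5
  have b3 : ∑ i, ∑ j, θ * T * c i * (θ * T * c j) * kk abv R (y i) (y j) =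
      θ ^ 2 * T ^ 2 * (∑ i, ∑ j, c i * c j * kk abv R (y i) (y j)) := by
    rw [Finset.mul_sum]
    refine Finset.sum_congr rfl fun i _ => ?_
    rw [Finset.mul_sum]
    refine Finset.sum_congr rfl fun j _ => ?_
    ring
  have b5 : ∑ i, ∑ j, 1 * (θ * T * c j) * kk abv R (x i) (y j) =
      θ * T * (∑ i, ∑ j, c j * kk abv R (x i) (y j)) := by
    rw [Finset.mul_sum]
    refine Finset.sum_congr rfl fun i _ => ?_
    rw [Finset.mul_sum]
    refine Finset.sum_congr rfl fun j _ => ?_
    ring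
  rw [b3, b4, b5, b6] at hq
  have e1 : 2 * θ * T ^ 2 / (d : ℝ) ^ m * (∑ j, c j * Real.log (max (abv (f^[m] (y j))) 1)) =
      2 * (θ * T ^ 2 / (d : ℝ) ^ m * (∑ j, c j * Real.log (max (abv (f^[m] (y j))) 1))) := by
    ring
  have e2 : 2 * θ * T * (∑ i, ∑ j, c j * kk abv R (x i) (y j)) =
      2 * (θ * T * (∑ i, ∑ j, c j * kk abv R (x i) (y j))) := by
    ring
  rw [e1, e2]
  have e3 : T ^ 2 * Lam / (d : ℝ) ^ m + 2 * -(T ^ 2 * Lam / (d : ℝ) ^ m) =
      -(T ^ 2 * Lam / (d : ℝ) ^ m) := by ring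
  have h7 := hq.trans (add_le_add_left (add_le_add_left (add_le_add_left (add_le_add_left
    (add_le_add b1 b2) _) _) _) _)
  linarith

/-- the core inequality -/
theorem core [IsAlgClosed L] (hna : IsNonarchimedean abv)
    (gen : ∀ N : ℕ, ∃ t : Fin N → L, (∀ i, abv (t i) ≤ 1) ∧ ∀ i j, i ≠ j → abv (t i - t j) = 1)
    {d : ℕ} (hd : 1 ≤ d) {F : L[X]}
    (hF : F.natDegree = d) (hlead : abv F.leadingCoeff = 1) (hc : ∀ i, abv (F.coeff i) ≤ 1)
    {b : L} (hb : b ≠ 0) (hb1 : abv b ≤ 1) (m : ℕ) {T : ℕ} (x : Fin T → L)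
    (hinj : Function.Injective x) (hx : ∀ i, abv (x i) ≤ 1)
    (hxm : ∀ i, abv ((qf F b)^[m] (x i)) ≤ 1)
    {J : Type} [Fintype J] (y : J → L) (hy : ∀ j, abv (y j) ≤ 1) (c : J → ℝ)
    (hc0 : ∑ j, c j = 0) (θ : ℝ) :
    ∑ i, ∑ j ∈ Finset.univ.erase i, Real.log (abv (x i - x j)) ≤
      T * (m * -Real.log (abv b)) -
      T ^ 2 * lamM d m (-Real.log (abv b)) / (d : ℝ) ^ m +
      2 * θ * T * (∑ i, ∑ j, c j * kk abv (m * -Real.log (abv b)) (x i) (y j)) +
      2 * θ * T ^ 2 / (d : ℝ) ^ m *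
        (∑ j, c j * Real.log (max (abv ((qf F b)^[m] (y j))) 1)) +
      θ ^ 2 * T ^ 2 * (∑ i, ∑ j, c i * c j * kk abv (m * -Real.log (abv b)) (y i) (y j)) := by
  refine le_of_forall_pos_le_add fun ε hε => ?_
  obtain ⟨B, hB⟩ := exists_nat_gt (T ^ 2 * (m * -Real.log (abv b)) / ε)
  have h1 := core_B hna gen hd hF hlead hc hb hb1 m x hinj hx hxm y hy c hc0 θ (B + 1)
    (Nat.succ_pos _)
  have h2 : T ^ 2 * (m * -Real.log (abv b)) / ((B + 1 : ℕ) : ℝ) ≤ ε := by
    rw [div_le_iff₀ (by positivity)]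
    rw [div_lt_iff₀ hε] at hB
    push_cast
    nlinarith
  linarith

end

end Pool.Agent.QPol
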