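import Mathlib
import Pool.Agent.QPol.Core

set_option autoImplicit false

/-!
# The local estimate, second kind: a root of `F` at distance one from all the points
-/

namespace Pool.Agent.QPol

open Polynomial Pool.Agent.RDF

section

variable {L : Type*} [Field L] {abv : AbsoluteValue L ℝ}

/-- generic points with respect to finitely many points of the unit disc -/
theorem exists_gen (hna : IsNonarchimedean abv)
    (gen : ∀ N : ℕ, ∃ t : Fin N → L, (∀ i, abv (t i) ≤ 1) ∧ ∀ i j, i ≠ j → abv (t i - t j) = 1)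
    {κ : Type*} [Fintype κ] (p : κ → L) (hp : ∀ i, abv (p i) ≤ 1) (q : ℕ) :
    ∃ t : Fin q → L, (∀ i, abv (t i) ≤ 1) ∧ (∀ i j, i ≠ j → abv (t i - t j) = 1) ∧
      ∀ a i, abv (p i - t a) = 1 := by
  obtain ⟨t, h1, h2, h3⟩ := exists_gen_points abv hna gen (fun i => (p i, (1 : L))) q
  refine ⟨t, h1, h2, fun a i => ?_⟩
  have h4 := h3 a i
  rwa [wedge_one, nrm_one abv _ (hp i)] at h4

/-- the size of the iterates, upper bound -/
theorem iter_log_le (hna : IsNonarchimedean abv) {d : ℕ} (hd : 1 ≤ d) {F : L[X]}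
    (hF : F.natDegree = d) (hlead : abv F.leadingCoeff = 1) (hc : ∀ i, abv (F.coeff i) ≤ 1)
    {b : L} (hb : b ≠ 0) (hb1 : abv b ≤ 1) (x : L) (n : ℕ) :
    Real.log (max (abv ((qf F b)^[n] x)) 1) ≤
      (d : ℝ) ^ n * Real.log (max (abv x) 1) + lamM d n (-Real.log (abv b)) := by
  induction n with
  | zero => simp [lamM]
  | succ n ih =>
    rw [Function.iterate_succ_apply']
    refine (qf_le hna hd hF hlead hc hb hb1 _).trans ?_
    have h1 : lamM d (n + 1) (-Real.log (abv b)) =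
        d * lamM d n (-Real.log (abv b)) + -Real.log (abv b) := by
      rw [lamM, lamM, Finset.sum_range_succ']
      simp only [pow_succ, pow_zero]
      rw [← Finset.sum_mul]
      ring
    rw [h1]
    have h2 := mul_le_mul_of_nonneg_left ih (Nat.cast_nonneg (α := ℝ) d)
    calc (d : ℝ) * Real.log (max (abv ((qf F b)^[n] x)) 1) - Real.log (abv b)
        ≤ d * ((d : ℝ) ^ n * Real.log (max (abv x) 1) + lamM d n (-Real.log (abv b))) -
          Real.log (abv b) := by linarith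
      _ = _ := by ring

/-- the size of the iterates outside the unit disc, lower bound -/
theorem iter_log_ge (hna : IsNonarchimedean abv) {d : ℕ} (hd : 1 ≤ d) {F : L[X]}
    (hF : F.natDegree = d) (hlead : abv F.leadingCoeff = 1) (hc : ∀ i, abv (F.coeff i) ≤ 1)
    {b : L} (hb : b ≠ 0) (hb1 : abv b ≤ 1) (x : L) (hx : 1 < abv x) (n : ℕ) :
    1 < abv ((qf F b)^[n] x) ∧ Real.log (abv ((qf F b)^[n] x)) =
      (d : ℝ) ^ n * Real.log (abv x) + lamM d n (-Real.log (abv b)) := by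
  induction n with
  | zero => simp [lamM, hx]
  | succ n ih =>
    rw [Function.iterate_succ_apply']
    obtain ⟨h1, h2⟩ := qf_out hna hd hF hlead hc hb hb1 ih.1
    refine ⟨h2, ?_⟩
    rw [h1, Real.log_div (pow_ne_zero _ (by linarith [ih.1])) (abv.pos hb).ne', Real.log_pow,
      ih.2]
    have h3 : lamM d (n + 1) (-Real.log (abv b)) =
        d * lamM d n (-Real.log (abv b)) + -Real.log (abv b) := by
      rw [lamM, lamM, Finset.sum_range_succ']
      simp only [pow_succ, pow_zero]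
      rw [← Finset.sum_mul]
      ring
    rw [h3]
    ring

/-- the energy of points in the unit disc is not positive -/
theorem energy_nonpos (hna : IsNonarchimedean abv) {T : ℕ} (x : Fin T → L)
    (hx : ∀ i, abv (x i) ≤ 1) :
    ∑ i, ∑ j ∈ Finset.univ.erase i, Real.log (abv (x i - x j)) ≤ 0 := by
  refine Finset.sum_nonpos fun i _ => Finset.sum_nonpos fun j _ => ?_
  refine Real.log_nonpos (abv.nonneg _) ?_
  exact (aux_sub_le abv hna _ _).trans (max_le (hx i) (hx j))

/-- The local estimate at the second kind of defective primes. -/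
theorem loc_B_core [IsAlgClosed L] (hna : IsNonarchimedean abv)
    (gen : ∀ N : ℕ, ∃ t : Fin N → L, (∀ i, abv (t i) ≤ 1) ∧ ∀ i j, i ≠ j → abv (t i - t j) = 1)
    {d : ℕ} (hd : 2 ≤ d) {F : L[X]}
    (hF : F.natDegree = d) (hlead : abv F.leadingCoeff = 1) (hc : ∀ i, abv (F.coeff i) ≤ 1)
    {b : L} (hb : b ≠ 0) (hb1 : abv b ≤ 1) {T : ℕ} (x : Fin T → L)
    (hinj : Function.Injective x) (hx : ∀ i n, abv ((qf F b)^[n] (x i)) ≤ 1)
    (y0 : L) (hy0 : F.eval y0 = 0) (hxy : ∀ i, abv (x i - y0) = 1) :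
    ∑ i, ∑ j ∈ Finset.univ.erase i, Real.log (abv (x i - x j)) ≤
      -(T ^ 2 * -Real.log (abv b) / (d - 1)) - T ^ 2 * -Real.log (abv b) / (8 * d ^ 2) +
        5 * T * -Real.log (abv b) := by
  classical
  set β := -Real.log (abv b) with hβ
  have hbp : 0 < abv b := abv.pos hb
  have hβ0 : 0 ≤ β := by
    rw [hβ, neg_nonneg]
    exact Real.log_nonpos hbp.le hb1
  have hx0 : ∀ i, abv (x i) ≤ 1 := fun i => hx i 0
  rcases hβ0.eq_or_lt with h0 | hβp
  · rw [← h0]
    simpa using energy_nonpos hna x hx0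
  have hd1 : 1 ≤ d := by omega
  have hdr : (2 : ℝ) ≤ d := by exact_mod_cast hd
  -- the root is in the unit disc
  have hroot1 : ∀ r : L, F.eval r = 0 → abv r ≤ 1 := by
    intro r hr
    by_contra hcon
    push Not at hcon
    have h1 := (qf_out hna hd1 hF hlead hc hb hb1 hcon).2
    rw [qf, hr, zero_div, map_zero] at h1
    exact absurd h1 (not_lt.mpr zero_le_one)
  obtain ⟨r, hr⟩ := exists_prod (abv := abv) F hF
  rw [hlead] at hr
  have hr0 : ∀ u, F.eval (r u) = 0 := by
    intro u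
    rw [← abv.eq_zero, hr]
    apply mul_eq_zero_of_right
    refine Finset.prod_eq_zero (Finset.mem_univ u) ?_
    rw [sub_self, map_zero]
  obtain ⟨t, ht1, ht2, ht3⟩ := exists_gen hna gen
    (Sum.elim x (Sum.elim (fun _ : Unit => y0) r)) (by
      rintro (i | u | u)
      · exact hx0 i
      · exact hroot1 y0 hy0
      · exact hroot1 _ (hr0 u)) 20
  have hFt : ∀ a, abv (F.eval (t a)) = 1 := by
    intro a
    rw [hr, one_mul]
    refine Finset.prod_eq_one fun u _ => ?_
    rw [abv.map_sub]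
    exact ht3 a (Sum.inr (Sum.inr u))
  obtain ⟨ϖ, hϖ⟩ := IsAlgClosed.exists_pow_nat_eq b (n := 2) (by norm_num)
  have hϖ0 : ϖ ≠ 0 := by
    rintro rfl
    exact hb (by rw [← hϖ]; ring)
  have hϖp : 0 < abv ϖ := abv.pos hϖ0
  have hϖl : Real.log (abv ϖ) = -(β / 2) := by
    have h1 : Real.log (abv b) = 2 * Real.log (abv ϖ) := by
      rw [← hϖ, map_pow, Real.log_pow]
      norm_num
    rw [hβ, h1]
    ring
  have hϖ1 : abv ϖ < 1 := by
    have h1 : Real.log (abv ϖ) < 0 := by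
      rw [hϖl]
      linarith
    by_contra hcon
    push Not at hcon
    exact absurd (Real.log_nonneg hcon) (not_le.mpr h1)
  have hnear : ∀ a, abv (ϖ * t a) ≤ abv ϖ := by
    intro a
    rw [map_mul]
    exact mul_le_of_le_one_right hϖp.le (ht1 a)
  set y : Fin 20 ⊕ Fin 20 → L := Sum.elim (fun a => y0 + ϖ * t a) t with hy
  set c : Fin 20 ⊕ Fin 20 → ℝ := Sum.elim (fun _ => 1 / 20) (fun _ => -(1 / 20)) with hcdef
  have hy1 : ∀ j, abv (y j) ≤ 1 := by
    rintro (a | a)
    · exact (hna _ _).trans (max_le (hroot1 y0 hy0) ((hnear a).trans hϖ1.le))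
    · exact ht1 a
  have hc0 : ∑ j, c j = 0 := by
    rw [Fintype.sum_sum_type]
    simp [hcdef]
  have hcore := core hna gen hd1 hF hlead hc hb hb1 5 x hinj hx0 (fun i => hx i 5) y hy1 c hc0
    (1 / (2 * d))
  rw [← hβ] at hcore
  have hR0 : (0 : ℝ) ≤ ((5 : ℕ) : ℝ) * β := by positivity
  -- the points and the test measure
  have hQx : ∑ i, ∑ j, c j * kk abv (((5 : ℕ) : ℝ) * β) (x i) (y j) = 0 := by
    refine Finset.sum_eq_zero fun i _ => Finset.sum_eq_zero fun j _ => ?_
    rw [kk_eq_zero abv _ hR0, mul_zero]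
    rcases j with a | a
    · change abv (x i - (y0 + ϖ * t a)) = 1
      rw [← sub_sub, aux_sub_eq abv hna, hxy]
      rw [hxy]
      exact lt_of_le_of_lt (hnear a) hϖ1
    · exact ht3 a (Sum.inl i)
  -- the test measure and itself
  have hQy : ∑ i, ∑ j, c i * c j * kk abv (((5 : ℕ) : ℝ) * β) (y i) (y j) ≤ β := by
    have e1 : ∀ a a' : Fin 20, kk abv (((5 : ℕ) : ℝ) * β) (y (.inl a)) (y (.inl a')) ≤
        if a' = a then 5 * β else β / 2 := by
      intro a a'
      split_ifs with h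
      · refine (kk_le abv _ _ _).trans_eq ?_
        norm_num
      · have h1 : y (.inl a) - y (.inl a') = ϖ * (t a - t a') := by
          simp only [hy, Sum.elim_inl]
          ring
        have h2 : abv (y (.inl a) - y (.inl a')) = abv ϖ := by
          rw [h1, map_mul, ht2 a a' (Ne.symm h), mul_one]
        have h3 : y (.inl a) ≠ y (.inl a') := by
          intro h4
          rw [h4, sub_self, map_zero] at h2
          exact hϖp.ne h2
        refine (kk_le_log abv _ h3).trans_eq ?_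
        rw [h2, hϖl]
        ring
    have e2 : ∀ a a' : Fin 20, kk abv (((5 : ℕ) : ℝ) * β) (y (.inr a)) (y (.inr a')) ≤
        if a' = a then 5 * β else 0 := by
      intro a a'
      split_ifs with h
      · refine (kk_le abv _ _ _).trans_eq ?_
        norm_num
      · rw [kk_eq_zero abv _ hR0]
        exact ht2 a a' (Ne.symm h)
    have e3 : ∀ a a' : Fin 20, 0 ≤ kk abv (((5 : ℕ) : ℝ) * β) (y (.inl a)) (y (.inr a')) :=
      fun a a' => kk_nonneg abv hna _ hR0 (hy1 _) (hy1 _)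
    have e4 : ∀ a a' : Fin 20, 0 ≤ kk abv (((5 : ℕ) : ℝ) * β) (y (.inr a)) (y (.inl a')) :=
      fun a a' => kk_nonneg abv hna _ hR0 (hy1 _) (hy1 _)
    rw [Fintype.sum_sum_type]
    simp only [Fintype.sum_sum_type, hcdef, Sum.elim_inl, Sum.elim_inr]
    have s1 : ∑ a : Fin 20, (∑ a' : Fin 20, (1 : ℝ) / 20 * (1 / 20) *
        kk abv (((5 : ℕ) : ℝ) * β) (y (.inl a)) (y (.inl a')) +
        ∑ a' : Fin 20, (1 : ℝ) / 20 * -(1 / 20) *
        kk abv (((5 : ℕ) : ℝ) * β) (y (.inl a)) (y (.inr a'))) ≤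
        ∑ a : Fin 20, (((1 : ℝ) / 400) * (5 * β + 19 * (β / 2))) := by
      refine Finset.sum_le_sum fun a _ => ?_
      have h1 : ∑ a' : Fin 20, (1 : ℝ) / 20 * (1 / 20) *
          kk abv (((5 : ℕ) : ℝ) * β) (y (.inl a)) (y (.inl a')) ≤
          ∑ a' : Fin 20, ((1 : ℝ) / 400) * (if a' = a then 5 * β else β / 2) := by
        refine Finset.sum_le_sum fun a' _ => ?_
        have h6 : (1 : ℝ) / 20 * (1 / 20) = 1 / 400 := by norm_num
        rw [h6]
        exact mul_le_mul_of_nonneg_left (e1 a a') (by norm_num)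
      have h2 : ∑ a' : Fin 20, ((1 : ℝ) / 400) * (if a' = a then 5 * β else β / 2) =
          ((1 : ℝ) / 400) * (5 * β + 19 * (β / 2)) := by
        rw [← Finset.mul_sum, Finset.sum_ite, Finset.sum_const, Finset.sum_const]
        have h3 : (Finset.univ.filter fun a' : Fin 20 => a' = a).card = 1 := by
          rw [Finset.filter_eq' Finset.univ a, if_pos (Finset.mem_univ a), Finset.card_singleton]
        have h4 : (Finset.univ.filter fun a' : Fin 20 => ¬ a' = a).card = 19 := by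
          have h5 := Finset.card_filter_add_card_filter_not (s := (Finset.univ : Finset (Fin 20)))
            (fun a' => a' = a)
          rw [h3, Finset.card_univ, Fintype.card_fin] at h5
          omega
        rw [h3, h4]
        norm_num
      have h3 : ∑ a' : Fin 20, (1 : ℝ) / 20 * -(1 / 20) *
          kk abv (((5 : ℕ) : ℝ) * β) (y (.inl a)) (y (.inr a')) ≤ 0 := by
        refine Finset.sum_nonpos fun a' _ => ?_
        exact mul_nonpos_of_nonpos_of_nonneg (by norm_num) (e3 a a')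
      linarith
    have s2 : ∑ a : Fin 20, (∑ a' : Fin 20, -((1 : ℝ) / 20) * (1 / 20) *
        kk abv (((5 : ℕ) : ℝ) * β) (y (.inr a)) (y (.inl a')) +
        ∑ a' : Fin 20, -((1 : ℝ) / 20) * -(1 / 20) *
        kk abv (((5 : ℕ) : ℝ) * β) (y (.inr a)) (y (.inr a'))) ≤
        ∑ a : Fin 20, (((1 : ℝ) / 400) * (5 * β)) := by
      refine Finset.sum_le_sum fun a _ => ?_
      have h1 : ∑ a' : Fin 20, -((1 : ℝ) / 20) * -(1 / 20) *
          kk abv (((5 : ℕ) : ℝ) * β) (y (.inr a)) (y (.inr a')) ≤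
          ∑ a' : Fin 20, ((1 : ℝ) / 400) * (if a' = a then 5 * β else 0) := by
        refine Finset.sum_le_sum fun a' _ => ?_
        have h6 : -((1 : ℝ) / 20) * -(1 / 20) = 1 / 400 := by norm_num
        rw [h6]
        exact mul_le_mul_of_nonneg_left (e2 a a') (by norm_num)
      have h2 : ∑ a' : Fin 20, ((1 : ℝ) / 400) * (if a' = a then 5 * β else 0) =
          ((1 : ℝ) / 400) * (5 * β) := by
        rw [← Finset.mul_sum, Finset.sum_ite_eq' Finset.univ a, if_pos (Finset.mem_univ a)]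
      have h3 : ∑ a' : Fin 20, -((1 : ℝ) / 20) * (1 / 20) *
          kk abv (((5 : ℕ) : ℝ) * β) (y (.inr a)) (y (.inl a')) ≤ 0 := by
        refine Finset.sum_nonpos fun a' _ => ?_
        exact mul_nonpos_of_nonpos_of_nonneg (by norm_num) (e4 a a')
      linarith
    refine (add_le_add s1 s2).trans ?_
    simp only [Finset.sum_const, Finset.card_univ, Fintype.card_fin, nsmul_eq_mul]
    push_cast
    linarith
  -- the values of the iterate
  have hnearl : ∀ a, Real.log (max (abv ((qf F b)^[5] (y0 + ϖ * t a))) 1) ≤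
      (d : ℝ) ^ 4 * (β / 2) + lamM d 4 β := by
    intro a
    have h1 : abv (F.eval (y0 + ϖ * t a)) ≤ abv ϖ := by
      have h2 := aux_eval_sub_le abv hna F hc (y0 + ϖ * t a) y0 (hy1 (.inl a)) (hroot1 y0 hy0)
      rw [hy0, sub_zero, add_sub_cancel_left] at h2
      exact h2.trans (hnear a)
    have h2 : Real.log (max (abv (qf F b (y0 + ϖ * t a))) 1) ≤ β / 2 := by
      have h3 : abv (qf F b (y0 + ϖ * t a)) ≤ (abv ϖ)⁻¹ := by
        rw [qf, map_div₀, div_le_iff₀ hbp, ← hϖ, map_pow]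
        refine h1.trans_eq ?_
        field_simp
      have h4 : Real.log (max (abv (qf F b (y0 + ϖ * t a))) 1) ≤ Real.log (abv ϖ)⁻¹ := by
        refine Real.log_le_log (lt_max_of_lt_right one_pos) (max_le h3 ?_)
        exact (one_le_inv₀ hϖp).mpr hϖ1.le
      rw [Real.log_inv, hϖl] at h4
      linarith
    have h3 := iter_log_le hna hd1 hF hlead hc hb hb1 (qf F b (y0 + ϖ * t a)) 4
    rw [← Function.iterate_succ_apply, ← hβ] at h3
    refine h3.trans ?_
    have h4 := mul_le_mul_of_nonneg_left h2 (by positivity : (0 : ℝ) ≤ (d : ℝ) ^ 4)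
    linarith
  have hfarl : ∀ a, (d : ℝ) ^ 4 * β + lamM d 4 β ≤
      Real.log (max (abv ((qf F b)^[5] (t a))) 1) := by
    intro a
    have h1 : abv (qf F b (t a)) = (abv b)⁻¹ := by
      rw [qf, map_div₀, hFt, one_div]
    have h2 : Real.log (abv (qf F b (t a))) = β := by
      rw [h1, Real.log_inv]
    have h3 : 1 < abv (qf F b (t a)) := by
      by_contra hcon
      push Not at hcon
      have := Real.log_nonpos (abv.nonneg _) hcon
      rw [h2] at this
      linarith
    obtain ⟨h4, h5⟩ := iter_log_ge hna hd1 hF hlead hc hb hb1 _ h3 4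
    rw [← Function.iterate_succ_apply] at h4 h5
    rw [max_eq_left h4.le, h5, h2]
  have hval : ∑ j, c j * Real.log (max (abv ((qf F b)^[5] (y j))) 1) ≤
      -((d : ℝ) ^ 4 * (β / 2)) := by
    rw [Fintype.sum_sum_type]
    simp only [hcdef, hy, Sum.elim_inl, Sum.elim_inr]
    have h1 : ∑ a : Fin 20, (1 : ℝ) / 20 *
        Real.log (max (abv ((qf F b)^[5] (y0 + ϖ * t a))) 1) ≤
        ∑ a : Fin 20, (1 : ℝ) / 20 * ((d : ℝ) ^ 4 * (β / 2) + lamM d 4 β) :=
      Finset.sum_le_sum fun a _ => mul_le_mul_of_nonneg_left (hnearl a) (by norm_num)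
    have h2 : ∑ a : Fin 20, -((1 : ℝ) / 20) *
        Real.log (max (abv ((qf F b)^[5] (t a))) 1) ≤
        ∑ a : Fin 20, -((1 : ℝ) / 20) * ((d : ℝ) ^ 4 * β + lamM d 4 β) :=
      Finset.sum_le_sum fun a _ => mul_le_mul_of_nonpos_left (hfarl a) (by norm_num)
    simp only [Finset.sum_const, Finset.card_univ, Fintype.card_fin, nsmul_eq_mul] at h1 h2
    push_cast at h1 h2
    linarith
  rw [hQx, mul_zero, add_zero] at hcore
  have hT2 : (0 : ℝ) ≤ (T : ℝ) ^ 2 := sq_nonneg _
  have hdp : (0 : ℝ) < d := by linarith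
  have k1 : 2 * (1 / (2 * (d : ℝ))) * T ^ 2 / (d : ℝ) ^ 5 *
      (∑ j, c j * Real.log (max (abv ((qf F b)^[5] (y j))) 1)) ≤
      2 * (1 / (2 * (d : ℝ))) * T ^ 2 / (d : ℝ) ^ 5 * (-((d : ℝ) ^ 4 * (β / 2))) :=
    mul_le_mul_of_nonneg_left hval (by positivity)
  have k2 : (1 / (2 * (d : ℝ))) ^ 2 * T ^ 2 *
      (∑ i, ∑ j, c i * c j * kk abv (((5 : ℕ) : ℝ) * β) (y i) (y j)) ≤
      (1 / (2 * (d : ℝ))) ^ 2 * T ^ 2 * β :=
    mul_le_mul_of_nonneg_left hQy (by positivity)
  have k3 : 2 * (1 / (2 * (d : ℝ))) * T ^ 2 / (d : ℝ) ^ 5 * (-((d : ℝ) ^ 4 * (β / 2))) =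
      -(T ^ 2 * β / (2 * d ^ 2)) := by
    field_simp
  have k4 : (1 / (2 * (d : ℝ))) ^ 2 * T ^ 2 * β = T ^ 2 * β / (4 * d ^ 2) := by
    field_simp
    ring
  have k5 : T ^ 2 * β / (d - 1) - T ^ 2 * β / (8 * d ^ 2) ≤
      (T : ℝ) ^ 2 * lamM d 5 β / (d : ℝ) ^ 5 := by
    have h1 : lamM d 5 β = β * (((d : ℝ) ^ 5 - 1) / (d - 1)) := by
      rw [lamM, geom_sum_eq (by linarith)]
    have hd1' : (0 : ℝ) < d - 1 := by linarith
    have h2 : (1 : ℝ) / (d - 1) - 1 / (8 * d ^ 2) ≤ (((d : ℝ) ^ 5 - 1) / (d - 1)) / (d : ℝ) ^ 5 := by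
      rw [div_div, div_sub_div _ _ hd1'.ne' (by positivity), div_le_div_iff₀ (by positivity)
        (by positivity)]
      have h3 : (8 : ℝ) ≤ (d - 1) * d ^ 3 := by
        have : (8 : ℝ) ≤ (d : ℝ) ^ 3 := by nlinarith
        nlinarith
      have h4 : (0 : ℝ) ≤ ((d - 1) * d ^ 3 - 8) * ((d - 1) * d ^ 4) := by
        apply mul_nonneg
        · linarith
        · positivity
      nlinarith
    have h3 := mul_le_mul_of_nonneg_left h2 (mul_nonneg hT2 hβp.le)
    rw [h1]
    calc T ^ 2 * β / (d - 1) - T ^ 2 * β / (8 * d ^ 2) =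
        (T : ℝ) ^ 2 * β * ((1 : ℝ) / (d - 1) - 1 / (8 * d ^ 2)) := by ring
      _ ≤ _ := h3
      _ = _ := by ring
  have k6 : T ^ 2 * β / (2 * (d : ℝ) ^ 2) = 4 * (T ^ 2 * β / (8 * (d : ℝ) ^ 2)) := by
    field_simp
    ring
  have k7 : T ^ 2 * β / (4 * (d : ℝ) ^ 2) = 2 * (T ^ 2 * β / (8 * (d : ℝ) ^ 2)) := by
    field_simp
    ring
  have k8 : (T : ℝ) * (((5 : ℕ) : ℝ) * β) = 5 * T * β := by
    push_cast
    ring
  rw [k3] at k1
  rw [k4] at k2
  rw [k8] at hcore
  have h9 := hcore.trans (add_le_add (add_le_add_right k1 _) k2)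
  rw [k6, k7] at h9
  linarith

end

end Pool.Agent.QPol
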