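import Mathlib
import Pool.Agent.QPol.LocB

set_option autoImplicit false

/-!
# Preimages of points under a polynomial with a unit coefficient
-/

namespace Pool.Agent.QPol

open Polynomial Pool.Agent.RDF

section

variable {L : Type*} [Field L] {abv : AbsoluteValue L ℝ}

/-- the coefficients of a product of linear factors with constant term one -/
theorem coeff_prod_le (hna : IsNonarchimedean abv) {ι : Type*} (s : Finset ι) (c : ι → L)
    (q : ℝ) (hq : 0 ≤ q) (hc : ∀ i ∈ s, abv (c i) ≤ q) (j : ℕ) :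
    abv ((∏ i ∈ s, (1 - C (c i) * X)).coeff j) ≤ q ^ j := by
  classical
  induction s using Finset.induction_on generalizing j with
  | empty =>
    rw [Finset.prod_empty, coeff_one]
    split_ifs with h
    · rw [map_one, h, pow_zero]
    · rw [map_zero]
      exact pow_nonneg hq _
  | insert a s ha ih =>
    have ih' := fun j => ih (fun i hi => hc i (Finset.mem_insert_of_mem hi)) j
    rw [Finset.prod_insert ha, sub_mul, one_mul, coeff_sub, mul_assoc, coeff_C_mul]
    rcases j with _ | j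
    · rw [mul_comm X, mul_coeff_zero, coeff_X_zero, mul_zero, mul_zero, sub_zero]
      exact ih' 0
    · rw [coeff_X_mul]
      refine (aux_sub_le abv hna _ _).trans (max_le (ih' (j + 1)) ?_)
      rw [map_mul, pow_succ, mul_comm]
      exact mul_le_mul (ih' j) (hc a (Finset.mem_insert_self _ _)) (abv.nonneg _)
        (pow_nonneg hq _)

/-- factorization -/
theorem exists_fact [IsAlgClosed L] {d : ℕ} (P : L[X]) (hP : P.natDegree = d) :
    ∃ r : Fin d → L, P = C P.leadingCoeff * ∏ u, (X - C (r u)) := by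
  have hcard : Multiset.card P.roots = d := by
    rw [← hP]
    exact (IsAlgClosed.splits P).natDegree_eq_card_roots.symm
  obtain ⟨l, hl⟩ : ∃ l : List L, (l : Multiset L) = P.roots := Quot.exists_rep _
  have hlen : l.length = d := by
    rw [← hcard, ← hl, Multiset.coe_card]
  subst hlen
  refine ⟨fun u => l.get u, ?_⟩
  have h1 : P = C P.leadingCoeff * (P.roots.map fun a => X - C a).prod :=
    (IsAlgClosed.splits P).eq_prod_roots
  conv_lhs => rw [h1]
  rw [← hl, Multiset.map_coe, Multiset.prod_coe]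
  congr 1
  exact (Fin.prod_univ_fun_getElem l (fun a => X - C a)).symm

/-- A point `z` with `|z| ≤ r ^ e` has a preimage in the disc of radius `r`. -/
theorem exists_preimage [IsAlgClosed L] (hna : IsNonarchimedean abv) {d e : ℕ} (he : 1 ≤ e)
    (hed : e ≤ d) {F : L[X]} (hF : F.natDegree = d) (hc : ∀ i, abv (F.coeff i) ≤ 1)
    (hce : abv (F.coeff e) = 1) {r : ℝ} (hr : 1 ≤ r) {z : L} (hz : abv z ≤ r ^ e) :
    ∃ y, abv y ≤ r ∧ F.eval y = z := by
  classical
  have hd : 1 ≤ d := he.trans hed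
  have hdeg : (F - C z).natDegree = d := by rw [natDegree_sub_C, hF]
  obtain ⟨ρ, hρ⟩ := exists_fact _ hdeg
  have hroot : ∀ u, F.eval (ρ u) = z := by
    intro u
    have h1 : (F - C z).eval (ρ u) = 0 := by
      rw [hρ, eval_mul, eval_prod]
      apply mul_eq_zero_of_right
      exact Finset.prod_eq_zero (Finset.mem_univ u) (by simp)
    rw [eval_sub, eval_C, sub_eq_zero] at h1
    exact h1
  by_contra hcon
  push Not at hcon
  have hall : ∀ u, r < abv (ρ u) := by
    intro u
    by_contra h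
    push Not at h
    exact hcon _ h (hroot u)
  have : Nonempty (Fin d) := ⟨⟨0, by omega⟩⟩
  obtain ⟨u0, -, hu0⟩ := Finset.exists_min_image Finset.univ (fun u => abv (ρ u))
    Finset.univ_nonempty
  set q : ℝ := (abv (ρ u0))⁻¹ with hq
  have hρ0 : ∀ u, ρ u ≠ 0 := by
    intro u h
    have := hall u
    rw [h, map_zero] at this
    linarith
  have hq0 : 0 < q := inv_pos.mpr (abv.pos (hρ0 u0))
  have hqr : r * q < 1 := by
    rw [hq, ← div_eq_mul_inv, div_lt_one (abv.pos (hρ0 u0))]
    exact hall u0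
  have hform : F - C z = C ((F - C z).eval 0) * ∏ u, (1 - C ((ρ u)⁻¹) * X) := by
    have h1 : ∀ u, (X - C (ρ u) : L[X]) = C (-ρ u) * (1 - C ((ρ u)⁻¹) * X) := by
      intro u
      rw [mul_sub, mul_one, ← mul_assoc, ← C_mul, neg_mul, mul_inv_cancel₀ (hρ0 u), C_neg, C_neg,
        C_1]
      ring
    have h2 : (F - C z).eval 0 = (F - C z).leadingCoeff * ∏ u, (-ρ u) := by
      conv_lhs => rw [hρ]
      rw [eval_mul, eval_C, eval_prod]
      simp
    rw [h2]
    conv_lhs => rw [hρ]
    rw [Finset.prod_congr rfl fun u _ => h1 u, Finset.prod_mul_distrib, C_mul, mul_assoc]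
    congr 2
    rw [map_prod]
  have hcoe : F.coeff e = (F - C z).eval 0 * (∏ u, (1 - C ((ρ u)⁻¹) * X)).coeff e := by
    have h1 := congrArg (fun P => P.coeff e) hform
    simp only [coeff_C_mul] at h1
    rw [coeff_sub, coeff_C_of_ne_zero (by omega), sub_zero] at h1
    exact h1
  have h0 : abv ((F - C z).eval 0) ≤ r ^ e := by
    rw [eval_sub, eval_C]
    refine (aux_sub_le abv hna _ _).trans (max_le ?_ hz)
    have h1 : F.eval 0 = F.coeff 0 := (coeff_zero_eq_eval_zero F).symm
    rw [h1]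
    exact (hc 0).trans (one_le_pow₀ hr)
  have h3 : abv ((∏ u, (1 - C ((ρ u)⁻¹) * X)).coeff e) ≤ q ^ e := by
    refine coeff_prod_le hna _ _ q hq0.le (fun u _ => ?_) e
    rw [map_inv₀, hq]
    exact inv_anti₀ (abv.pos (hρ0 u0)) (hu0 u (Finset.mem_univ u))
  have h4 : abv (F.coeff e) ≤ (r * q) ^ e := by
    rw [hcoe, map_mul, mul_pow]
    exact mul_le_mul h0 h3 (abv.nonneg _) (pow_nonneg (by linarith) _)
  rw [hce] at h4
  have h5 : (r * q) ^ e < 1 := pow_lt_one₀ (mul_nonneg (by linarith) hq0.le) hqr (by omega)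
  linarith

/-- iterated preimages -/
theorem exists_preimage_iter [IsAlgClosed L] (hna : IsNonarchimedean abv) {d e : ℕ} (he : 2 ≤ e)
    (hed : e ≤ d) {F : L[X]} (hF : F.natDegree = d) (hc : ∀ i, abv (F.coeff i) ≤ 1)
    (hce : abv (F.coeff e) = 1) {r : ℝ} (hr : 1 ≤ r) (t : ℕ) : ∀ z : L, abv z ≤ r ^ 2 ^ t →
    ∃ y, abv y ≤ r ∧ (fun x => F.eval x)^[t] y = z := by
  induction t with
  | zero =>
    intro z hz
    exact ⟨z, by simpa using hz, rfl⟩
  | succ t ih =>
    intro z hz
    have h1 : (1 : ℝ) ≤ r ^ 2 ^ t := one_le_pow₀ hr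
    obtain ⟨y1, hy1, hy2⟩ := exists_preimage (r := r ^ 2 ^ t) hna (by omega : 1 ≤ e) hed hF hc hce
      h1 (z := z) (by
        refine hz.trans ?_
        rw [pow_succ, pow_mul]
        exact pow_le_pow_right₀ h1 he)
    obtain ⟨y, hy3, hy4⟩ := ih y1 hy1
    refine ⟨y, hy3, ?_⟩
    rw [Function.iterate_succ_apply', hy4]
    exact hy2

end

end Pool.Agent.QPol
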