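import Mathlib
import Pool.Agent.QPol.PreA

set_option autoImplicit false

/-!
# The local estimate, first kind: small leading coefficient, good higher coefficients
-/

namespace Pool.Agent.QPol

open Polynomial Pool.Agent.RDF

section

variable {L : Type*} [Field L] {abv : AbsoluteValue L ℝ}

/-- the numerator of the conjugate polynomial -/
noncomputable def cj (d : ℕ) (F : L[X]) (a : L) : L[X] :=
  X ^ d + ∑ j ∈ Finset.range d, monomial j (F.coeff j * a ^ (d - 1 - j))

theorem cj_coeff_aux (d : ℕ) (F : L[X]) (a : L) (i : ℕ) :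
    (∑ j ∈ Finset.range d, monomial j (F.coeff j * a ^ (d - 1 - j)) : L[X]).coeff i =
      if i < d then F.coeff i * a ^ (d - 1 - i) else 0 := by
  rw [finsetSum_coeff]
  simp only [coeff_monomial]
  rw [Finset.sum_ite_eq']
  simp only [Finset.mem_range]

theorem cj_deg_lt (d : ℕ) (F : L[X]) (a : L) :
    (∑ j ∈ Finset.range d, monomial j (F.coeff j * a ^ (d - 1 - j)) : L[X]).degree < d := by
  rw [degree_lt_iff_coeff_zero]
  intro i hi
  rw [cj_coeff_aux, if_neg (by omega)]

theorem cj_monic (d : ℕ) (F : L[X]) (a : L) : (cj d F a).Monic :=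
  monic_X_pow_add (cj_deg_lt d F a)

theorem cj_natDegree (d : ℕ) (F : L[X]) (a : L) : (cj d F a).natDegree = d := by
  rw [cj, natDegree_add_eq_left_of_degree_lt, natDegree_X_pow]
  rw [degree_X_pow]
  exact cj_deg_lt d F a

theorem cj_coeff_le (d : ℕ) (F : L[X]) (hc : ∀ i, abv (F.coeff i) ≤ 1) (a : L) (ha : abv a ≤ 1)
    (i : ℕ) : abv ((cj d F a).coeff i) ≤ 1 := by
  rw [cj, coeff_add, cj_coeff_aux, coeff_X_pow]
  by_cases h : i = d
  · rw [if_pos h, if_neg (by omega), add_zero, map_one]
  · rw [if_neg h, zero_add]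
    split_ifs
    · rw [map_mul, map_pow]
      exact mul_le_one₀ (hc i) (pow_nonneg (abv.nonneg _) _) (pow_le_one₀ (abv.nonneg _) ha)
    · rw [map_zero]
      exact zero_le_one

theorem cj_eval {d : ℕ} (hd : 2 ≤ d) {F : L[X]} (hF : F.natDegree = d) (y : L) :
    qf (cj d F F.leadingCoeff) (F.leadingCoeff ^ (d - 2)) (F.leadingCoeff * y) =
      F.leadingCoeff * F.eval y := by
  have ha : F.leadingCoeff ≠ 0 := by
    rw [leadingCoeff_ne_zero]
    rintro rfl
    rw [natDegree_zero] at hF
    omega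
  set a := F.leadingCoeff with hadef
  have h1 : (cj d F a).eval (a * y) = a ^ (d - 1) * F.eval y := by
    rw [cj, eval_add, eval_pow, eval_X, eval_finsetSum, eval_eq_sum_range, hF,
      Finset.sum_range_succ, mul_add, Finset.mul_sum, add_comm]
    congr 1
    · apply Finset.sum_congr rfl
      intro j hj
      have hj' := Finset.mem_range.mp hj
      rw [eval_monomial, mul_pow]
      have h2 : a ^ (d - 1) = a ^ (d - 1 - j) * a ^ j := by
        rw [← pow_add]
        congr 1
        omega
      rw [h2]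
      ring
    · have h2 : F.coeff d = a := by rw [hadef, leadingCoeff, hF]
      have h3 : a ^ d = a ^ (d - 1) * a := by
        rw [← pow_succ]
        congr 1
        omega
      rw [h2, mul_pow, h3]
      ring
  rw [qf, h1, div_eq_iff (pow_ne_zero _ ha)]
  have h3 : a ^ (d - 1) = a * a ^ (d - 2) := by
    rw [← pow_succ']
    congr 1
    omega
  rw [h3]
  ring

theorem cj_iter {d : ℕ} (hd : 2 ≤ d) {F : L[X]} (hF : F.natDegree = d) (n : ℕ) (y : L) :
    (qf (cj d F F.leadingCoeff) (F.leadingCoeff ^ (d - 2)))^[n] (F.leadingCoeff * y) =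
      F.leadingCoeff * (fun x => F.eval x)^[n] y := by
  induction n generalizing y with
  | zero => rfl
  | succ n ih => rw [Function.iterate_succ_apply, cj_eval hd hF, ih, Function.iterate_succ_apply]

theorem kk_eq_min (abv : AbsoluteValue L ℝ) (R : ℝ) {x y : L} (h : x ≠ y) :
    kk abv R x y = min R (-Real.log (abv (x - y))) := by
  rw [kk, kr, if_neg, wedge_one]
  rw [wedge_one]
  exact sub_ne_zero.mpr h

theorem le_kk (abv : AbsoluteValue L ℝ) {R u : ℝ} (hR : u ≤ R) {x y : L}
    (h : abv (x - y) ≤ Real.exp (-u)) : u ≤ kk abv R x y := by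
  by_cases hxy : x = y
  · subst hxy
    rw [kk, kr_self]
    exact hR
  · rw [kk_eq_min abv R hxy]
    refine le_min hR ?_
    have hp : 0 < abv (x - y) := abv.pos (sub_ne_zero.mpr hxy)
    have h1 := Real.log_le_log hp h
    rw [Real.log_exp] at h1
    linarith

/-- integral values -/
theorem eval_iter_le (hna : IsNonarchimedean abv) {F : L[X]} (hc : ∀ i, abv (F.coeff i) ≤ 1)
    {y : L} (hy : abv y ≤ 1) (n : ℕ) : abv ((fun x => F.eval x)^[n] y) ≤ 1 := by
  induction n with
  | zero => exact hy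
  | succ n ih =>
    rw [Function.iterate_succ_apply']
    exact aux_eval_le abv hna F 1 zero_le_one hc _ ih

/-- the values slightly outside the unit disc -/
theorem eval_le_exp (hna : IsNonarchimedean abv) {d e : ℕ} {F : L[X]}
    (hF : F.natDegree = d) (hc : ∀ i, abv (F.coeff i) ≤ 1) {w s : ℝ} (hs : 0 ≤ s)
    (hc2 : ∀ i, e < i → abv (F.coeff i) ≤ Real.exp (-w)) (hdw : d * s ≤ w) {z : L}
    (hz : abv z ≤ Real.exp s) : abv (F.eval z) ≤ Real.exp (e * s) := by
  rw [eval_eq_sum_range]
  refine sum_le_of_na abv hna _ _ _ (Real.exp_pos _).le fun i hi => ?_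
  have hi' : i ≤ d := by
    have := Finset.mem_range.mp hi
    omega
  rw [map_mul, map_pow]
  have h1 : abv z ^ i ≤ Real.exp (i * s) := by
    rw [Real.exp_nat_mul]
    exact pow_le_pow_left₀ (abv.nonneg _) hz i
  by_cases hie : i ≤ e
  · calc abv (F.coeff i) * abv z ^ i ≤ 1 * Real.exp (i * s) :=
          mul_le_mul (hc i) h1 (pow_nonneg (abv.nonneg _) _) zero_le_one
      _ = Real.exp (i * s) := one_mul _
      _ ≤ Real.exp (e * s) := by
          rw [Real.exp_le_exp]
          exact mul_le_mul_of_nonneg_right (by exact_mod_cast hie) hs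
  · push Not at hie
    calc abv (F.coeff i) * abv z ^ i ≤ Real.exp (-w) * Real.exp (i * s) :=
          mul_le_mul (hc2 i hie) h1 (pow_nonneg (abv.nonneg _) _) (Real.exp_pos _).le
      _ = Real.exp (-w + i * s) := (Real.exp_add _ _).symm
      _ ≤ Real.exp (e * s) := by
          rw [Real.exp_le_exp]
          have h2 : (i : ℝ) * s ≤ d * s := mul_le_mul_of_nonneg_right (by exact_mod_cast hi') hs
          have h3 : (0 : ℝ) ≤ e * s := by positivity
          linarith

/-- scaling of the energy -/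
theorem energy_scale {a : L} (ha0 : a ≠ 0) {α : ℝ} (hla : Real.log (abv a) = -α) {T : ℕ}
    (x : Fin T → L) (hinj : Function.Injective x) :
    ∑ i, ∑ j ∈ Finset.univ.erase i, Real.log (abv (a * x i - a * x j)) =
      -((T : ℝ) * (T - 1) * α) + ∑ i, ∑ j ∈ Finset.univ.erase i, Real.log (abv (x i - x j)) := by
  have hap : 0 < abv a := abv.pos ha0
  have h1 : ∀ i, ∑ j ∈ Finset.univ.erase i, Real.log (abv (a * x i - a * x j)) =
      -(((T : ℝ) - 1) * α) + ∑ j ∈ Finset.univ.erase i, Real.log (abv (x i - x j)) := by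
    intro i
    have h2 : ∀ j ∈ Finset.univ.erase i, Real.log (abv (a * x i - a * x j)) =
        -α + Real.log (abv (x i - x j)) := by
      intro j hj
      have h3 : x i - x j ≠ 0 := sub_ne_zero.mpr fun h =>
        (Finset.ne_of_mem_erase hj) (hinj h).symm
      rw [← mul_sub, map_mul, Real.log_mul hap.ne' (abv.pos h3).ne', hla]
    rw [Finset.sum_congr rfl h2, Finset.sum_add_distrib, Finset.sum_const,
      Finset.card_erase_of_mem (Finset.mem_univ i), Finset.card_univ, Fintype.card_fin,
      nsmul_eq_mul, Nat.cast_sub (by have := i.2; omega)]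
    push_cast
    ring
  rw [Finset.sum_congr rfl fun i _ => h1 i, Finset.sum_add_distrib, Finset.sum_const,
    Finset.card_univ, Fintype.card_fin, nsmul_eq_mul]
  ring

/-- the final numerical step -/
theorem num_A {d t m : ℕ} (hd : 3 ≤ d) (hm : m = 2 * t + 8) {T α β R V E QX QY W : ℝ}
    (hT : 0 ≤ T) (hα : 0 < α) (hβ : β = (d - 2) * α) (hR : R ≤ m * d * α) (hQX : QX ≤ 0)
    (hQY : QY ≤ 8 * d ^ 2 * α) (hW : W ≤ -V) (hV : (d : ℝ) ^ (t + 7) * α ≤ V)
    (hcore : -(T * (T - 1) * α) + E ≤ T * R - T ^ 2 * lamM d m β / (d : ℝ) ^ m +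
      2 * (1 / (8 * (d : ℝ) ^ (t + 3))) * T * QX +
      2 * (1 / (8 * (d : ℝ) ^ (t + 3))) * T ^ 2 / (d : ℝ) ^ m * W +
      (1 / (8 * (d : ℝ) ^ (t + 3))) ^ 2 * T ^ 2 * QY) :
    E ≤ T ^ 2 * α / (d - 1) - (1 / (16 * (d : ℝ) ^ (2 * t + 4)) * T ^ 2 -
      (2 * t + 8) * d * T) * α := by
  have hdr : (3 : ℝ) ≤ d := by exact_mod_cast hd
  have hdp : (0 : ℝ) < d := by linarith
  have hd1' : (0 : ℝ) < d - 1 := by linarith
  have h0 : (0 : ℝ) ≤ 2 * (1 / (8 * (d : ℝ) ^ (t + 3))) * T := by positivity
  have k1 := mul_nonpos_of_nonneg_of_nonpos h0 hQX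
  have h1 : (0 : ℝ) ≤ 2 * (1 / (8 * (d : ℝ) ^ (t + 3))) * T ^ 2 / (d : ℝ) ^ m := by positivity
  have k2 := mul_le_mul_of_nonneg_left (hW.trans (neg_le_neg hV)) h1
  have h2 : (0 : ℝ) ≤ (1 / (8 * (d : ℝ) ^ (t + 3))) ^ 2 * T ^ 2 := by positivity
  have k3 := mul_le_mul_of_nonneg_left hQY h2
  have e2 : 2 * (1 / (8 * (d : ℝ) ^ (t + 3))) * T ^ 2 / (d : ℝ) ^ m * -((d : ℝ) ^ (t + 7) * α) =
      -(4 * (T ^ 2 * α / (16 * (d : ℝ) ^ (2 * t + 4)))) := by
    have h3 : (d : ℝ) ^ m = d ^ (t + 7) * d ^ (t + 1) := by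
      rw [← pow_add, hm]
      congr 1
      ring
    have h4 : (d : ℝ) ^ (2 * t + 4) = d ^ (t + 3) * d ^ (t + 1) := by
      rw [← pow_add]
      congr 1
      ring
    rw [h3, h4]
    field_simp
    ring
  have e3 : (1 / (8 * (d : ℝ) ^ (t + 3))) ^ 2 * T ^ 2 * (8 * d ^ 2 * α) =
      2 * (T ^ 2 * α / (16 * (d : ℝ) ^ (2 * t + 4))) := by
    have h3 : ((d : ℝ) ^ (t + 3)) ^ 2 = d ^ (2 * t + 4) * d ^ 2 := by
      rw [← pow_add, ← pow_mul]
      congr 1
      ring
    rw [div_pow, mul_pow, h3]
    field_simp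
    ring
  have e4 : T ^ 2 * lamM d m β / (d : ℝ) ^ m =
      T ^ 2 * α - T ^ 2 * α / (d - 1) -
        T ^ 2 * α * ((d - 2) / (d - 1)) / ((d : ℝ) ^ (2 * t + 4) * d ^ 4) := by
    have h3 : lamM d m β = β * (((d : ℝ) ^ m - 1) / (d - 1)) := by
      rw [lamM, geom_sum_eq (by linarith)]
    have h4 : (d : ℝ) ^ m = d ^ (2 * t + 4) * d ^ 4 := by
      rw [← pow_add, hm]
    rw [h3, hβ, h4]
    field_simp
    ring
  have e5 : T ^ 2 * α * (((d : ℝ) - 2) / (d - 1)) / ((d : ℝ) ^ (2 * t + 4) * d ^ 4) ≤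
      T ^ 2 * α / (16 * (d : ℝ) ^ (2 * t + 4)) := by
    have h4 : (16 : ℝ) ≤ d ^ 4 := by
      have : (2 : ℝ) ^ 4 ≤ d ^ 4 := pow_le_pow_left₀ (by norm_num) (by linarith) 4
      linarith
    have h5 : ((d : ℝ) - 2) / (d - 1) ≤ 1 := by
      rw [div_le_one hd1']
      linarith
    have h6 : (0 : ℝ) ≤ T ^ 2 * α := by positivity
    calc T ^ 2 * α * (((d : ℝ) - 2) / (d - 1)) / ((d : ℝ) ^ (2 * t + 4) * d ^ 4) ≤
        T ^ 2 * α * 1 / ((d : ℝ) ^ (2 * t + 4) * 16) := by
          refine div_le_div₀ (by positivity) (mul_le_mul_of_nonneg_left h5 h6) (by positivity) ?_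
          exact mul_le_mul_of_nonneg_left h4 (by positivity)
      _ = _ := by rw [mul_one, mul_comm (_ ^ _) (16 : ℝ)]
  have k5 := mul_le_mul_of_nonneg_left hR hT
  have e6 : T * (m * d * α) = (2 * t + 8) * d * T * α := by
    rw [hm]
    push_cast
    ring
  have e8 : (1 / (16 * (d : ℝ) ^ (2 * t + 4)) * T ^ 2 - (2 * t + 8) * d * T) * α =
      T ^ 2 * α / (16 * (d : ℝ) ^ (2 * t + 4)) - (2 * t + 8) * d * T * α := by
    field_simp
  have e9 : T * (T - 1) * α ≤ T ^ 2 * α := by
    have : (0 : ℝ) ≤ T * α := by positivity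
    nlinarith
  rw [e8]
  rw [e2] at k2
  rw [e3] at k3
  rw [e4] at hcore
  rw [e6] at k5
  linarith

/-- The local estimate at the first kind of defective primes. -/
theorem loc_A_core [IsAlgClosed L] (hna : IsNonarchimedean abv)
    (gen : ∀ N : ℕ, ∃ t : Fin N → L, (∀ i, abv (t i) ≤ 1) ∧ ∀ i j, i ≠ j → abv (t i - t j) = 1)
    {d e N k : ℕ} (hN : 1 ≤ N) (he : 2 ≤ e) (hed : e < d) {F : L[X]} (hF : F.natDegree = d)
    (hc : ∀ i, abv (F.coeff i) ≤ 1) (w : ℝ) (hw : 0 < w) (π : L) (hπ : abv π = Real.exp (-w))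
    (hce : abv (F.coeff e) = 1) (hc2 : ∀ i, e < i → abv (F.coeff i) ≤ Real.exp (-w)) (α : ℝ)
    (hα : abv F.leadingCoeff = Real.exp (-α)) (hα1 : w ≤ α) (hα2 : α ≤ k * w) {T : ℕ}
    (x : Fin T → L) (hinj : Function.Injective x)
    (hbd : ∀ i n, abv (F.leadingCoeff * (fun x => F.eval x)^[n] (x i)) ≤ 1)
    (hx : ∀ i, 1 < abv (x i) → Real.exp (w / N) ≤ abv (x i)) (t : ℕ)
    (ht : t = k * N * (d + 1) ^ 2) :
    ∑ i, ∑ j ∈ Finset.univ.erase i, Real.log (abv (x i - x j)) ≤
      T ^ 2 * α / (d - 1) - (1 / (16 * (d : ℝ) ^ (2 * t + 4)) * T ^ 2 - (2 * t + 8) * d * T) * α := by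
  classical
  have hd3 : 3 ≤ d := by omega
  have hd2 : 2 ≤ d := by omega
  have hd1 : 1 ≤ d := by omega
  have hdr : (3 : ℝ) ≤ d := by exact_mod_cast hd3
  have her : (2 : ℝ) ≤ e := by exact_mod_cast he
  have hedr : (e : ℝ) + 1 ≤ d := by exact_mod_cast hed
  have hNr : (1 : ℝ) ≤ N := by exact_mod_cast hN
  have hα0 : 0 < α := lt_of_lt_of_le hw hα1
  set a := F.leadingCoeff with hadef
  have hap : 0 < abv a := by rw [hα]; exact Real.exp_pos _
  have ha0 : a ≠ 0 := abv.pos_iff.mp hap
  have hla : Real.log (abv a) = -α := by rw [hα, Real.log_exp]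
  have ha1 : abv a ≤ 1 := by
    rw [hα, Real.exp_le_one_iff]
    linarith
  -- the conjugate map
  set G := cj d F a with hG
  set bt := a ^ (d - 2) with hbt
  have hGd : G.natDegree = d := cj_natDegree d F a
  have hGl : abv G.leadingCoeff = 1 := by rw [hG, (cj_monic d F a).leadingCoeff, map_one]
  have hGc : ∀ i, abv (G.coeff i) ≤ 1 := cj_coeff_le d F hc a ha1
  have hbt0 : bt ≠ 0 := pow_ne_zero _ ha0
  have hbt1 : abv bt ≤ 1 := by
    rw [hbt, map_pow]
    exact pow_le_one₀ (abv.nonneg _) ha1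
  set β := -Real.log (abv bt) with hβ
  have hβα : β = (d - 2) * α := by
    rw [hβ, hbt, map_pow, Real.log_pow, hla, Nat.cast_sub hd2]
    push_cast
    ring
  have hβ1 : α ≤ β := by
    rw [hβα]
    nlinarith
  have hiter : ∀ n y, (qf G bt)^[n] (a * y) = a * (fun x => F.eval x)^[n] y := fun n y =>
    cj_iter hd2 hF n y
  -- the scales
  set n0 := 2 * t + 7 with hn0
  set s : ℝ := w / (N * (d + 1) ^ 2) with hs
  have hden : (0 : ℝ) < N * (d + 1) ^ 2 := by positivity
  have hs0 : 0 < s := div_pos hw hden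
  have hsw : s * (N * (d + 1) ^ 2) = w := by
    rw [hs]
    field_simp
  have hds : d * s ≤ w := by
    rw [← hsw]
    have h1 : (d : ℝ) ≤ N * (d + 1) ^ 2 := by nlinarith
    nlinarith
  have hSw : e * s < w / N := by
    rw [lt_div_iff₀ (by linarith)]
    rw [← hsw]
    have h1 : (e : ℝ) < (d + 1) ^ 2 := by nlinarith
    have h2 : (e : ℝ) * s * N < s * (N * (d + 1) ^ 2) := by
      have h3 : 0 < s * N := by positivity
      nlinarith
    exact h2
  have hS1 : w / N ≤ w := div_le_self hw.le hNr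
  have hSα : e * s < α := by linarith
  have hss : s ≤ e * s := by nlinarith
  obtain ⟨κ, hκ⟩ := IsAlgClosed.exists_pow_nat_eq π (n := N * (d + 1) ^ 2) (by positivity)
  have hκp : 0 < abv κ := by
    refine abv.pos fun h => ?_
    rw [h, zero_pow (by positivity)] at hκ
    rw [← hκ, map_zero] at hπ
    exact absurd hπ (Real.exp_pos _).ne
  have hκ0 : κ ≠ 0 := abv.pos_iff.mp hκp
  have hlκ : Real.log (abv κ) = -s := by
    have h1 : Real.log (abv π) = (N * (d + 1) ^ 2 : ℕ) * Real.log (abv κ) := by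
      rw [← hκ, map_pow, Real.log_pow]
    rw [hπ, Real.log_exp] at h1
    push_cast at h1
    have h2 : (N * (d + 1) ^ 2 : ℝ) * (Real.log (abv κ) + s) = 0 := by
      rw [mul_add, ← h1, mul_comm _ s, hsw]
      ring
    rcases mul_eq_zero.mp h2 with h3 | h3
    · exact absurd h3 hden.ne'
    · linarith
  have habκ : abv κ = Real.exp (-s) := by rw [← hlκ, Real.exp_log hκp]
  have hκe : ∀ j : ℕ, abv (κ⁻¹ ^ j) = Real.exp (j * s) := by
    intro j
    rw [map_pow, map_inv₀, habκ, ← Real.exp_neg, neg_neg, ← Real.exp_nat_mul]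
  -- the roots of the iterate
  obtain ⟨ρ, hρ⟩ := exists_roots (abv := abv) hd1 hGd hGl hbt0 n0 0
  rw [← hβ] at hρ
  simp only [sub_zero] at hρ
  set V : ℝ := lamM d n0 β + ∑ u, Real.log (max (abv (ρ u)) (Real.exp (e * s - α))) with hV
  have hmaxp : ∀ u, 0 < max (abv (ρ u)) (Real.exp (e * s - α)) := fun u =>
    lt_max_of_lt_right (Real.exp_pos _)
  have hVexp : Real.exp V = Real.exp (lamM d n0 β) *
      ∏ u, max (abv (ρ u)) (Real.exp (e * s - α)) := by
    rw [hV, Real.exp_add, Real.exp_sum]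
    congr 1
    exact Finset.prod_congr rfl fun u _ => Real.exp_log (hmaxp u)
  have hsup : ∀ Y, abv Y ≤ Real.exp (e * s - α) → abv ((qf G bt)^[n0] Y) ≤ Real.exp V := by
    intro Y hY
    rw [hρ, hVexp]
    refine mul_le_mul_of_nonneg_left ?_ (Real.exp_pos _).le
    refine Finset.prod_le_prod (fun _ _ => abv.nonneg _) fun u _ => ?_
    refine (aux_sub_le abv hna _ _).trans (max_le ?_ (le_max_left _ _))
    exact hY.trans (le_max_right _ _)
  -- lower bound for `V`
  have hV1 : (d : ℝ) ^ (t + 7) * α ≤ V := by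
    have hz : abv ((a ^ 2)⁻¹) = Real.exp (2 * α) := by
      rw [map_inv₀, map_pow, hα, ← Real.exp_nat_mul, ← Real.exp_neg]
      congr 1
      push_cast
      ring
    obtain ⟨y, hy1, hy2⟩ := exists_preimage_iter hna he hed.le hF hc hce
      (r := Real.exp (e * s)) (Real.one_le_exp (by positivity)) t ((a ^ 2)⁻¹) (by
        rw [hz, ← Real.exp_nat_mul, Real.exp_le_exp]
        have h1 : (t : ℝ) ≤ 2 ^ t := by exact_mod_cast (Nat.lt_two_pow_self).le
        have h2 : (t : ℝ) = k * N * (d + 1) ^ 2 := by rw [ht]; push_cast; ring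
        have h3 : α ≤ (2 : ℝ) ^ t * s := by
          calc α ≤ k * w := hα2
            _ = (k * N * (d + 1) ^ 2) * s := by rw [← hsw]; ring
            _ ≤ 2 ^ t * s := by
                rw [← h2]
                exact mul_le_mul_of_nonneg_right h1 hs0.le
        push_cast
        calc 2 * α ≤ 2 * ((2 : ℝ) ^ t * s) := by linarith
          _ ≤ e * ((2 : ℝ) ^ t * s) := mul_le_mul_of_nonneg_right her (by positivity)
          _ = 2 ^ t * (e * s) := by ring)
    have h1 : abv (a * y) ≤ Real.exp (e * s - α) := by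
      rw [map_mul, hα, sub_eq_add_neg, Real.exp_add, mul_comm]
      exact mul_le_mul_of_nonneg_right hy1 (Real.exp_pos _).le
    have h2 := hsup (a * y) h1
    have h3 : abv ((qf G bt)^[t] (a * y)) = Real.exp α := by
      rw [hiter, hy2, map_mul, hz, hα, ← Real.exp_add]
      congr 1
      ring
    have h4 : 1 < abv ((qf G bt)^[t] (a * y)) := by
      rw [h3]
      exact Real.one_lt_exp_iff.mpr hα0
    obtain ⟨h5, h6⟩ := iter_log_ge hna hd1 hGd hGl hGc hbt0 hbt1 _ h4 (t + 7)
    rw [← Function.iterate_add_apply] at h5 h6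
    have h7 : t + 7 + t = n0 := by rw [hn0]; ring
    rw [h7] at h5 h6
    have h8 := Real.log_le_log (by linarith) h2
    rw [Real.log_exp, h6, h3, Real.log_exp, ← hβ] at h8
    have h9 : 0 ≤ lamM d (t + 7) β := by
      rw [lamM]
      exact mul_nonneg (by linarith) (Finset.sum_nonneg fun i _ => by positivity)
    linarith
  have hV0 : 0 < V := lt_of_lt_of_le (by positivity) hV1
  -- the generic points
  set q : ℕ := (n0 + 1) * d with hq
  have hq0 : 0 < q := by positivity
  have hqr : (0 : ℝ) < q := by exact_mod_cast hq0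
  obtain ⟨g, hg1, hg2, hg3⟩ := exists_gen_points abv hna gen
    (Sum.elim (fun _ : Unit => ((0 : L), (1 : L)))
      (fun u : Fin (d ^ n0) => (ρ u, a * κ⁻¹ ^ e))) q
  have hgu : ∀ l, abv (g l) = 1 := by
    intro l
    have h := hg3 l (Sum.inl ())
    simp only [Sum.elim_inl] at h
    have h1 : wedge ((0 : L), (1 : L)) (g l, 1) = -g l := by simp [wedge]
    rw [h1, abv.map_neg] at h
    rw [h, nrm]
    simp
  have hgρ : ∀ l u, abv (a * κ⁻¹ ^ e * g l - ρ u) =
      max (abv (ρ u)) (Real.exp (e * s - α)) := by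
    intro l u
    have h := hg3 l (Sum.inr u)
    simp only [Sum.elim_inr] at h
    have h1 : wedge (ρ u, a * κ⁻¹ ^ e) (g l, 1) = -(a * κ⁻¹ ^ e * g l - ρ u) := by
      simp only [wedge]
      ring
    rw [h1, abv.map_neg] at h
    rw [h, nrm, map_mul, hα, hκe, ← Real.exp_add]
    congr 2
    ring
  -- the test measure
  set rad : Fin 3 → ℕ := ![0, 1, e] with hrad
  set y : Fin 3 × Fin q → L := fun p => a * κ⁻¹ ^ (rad p.1) * g p.2 with hy
  set cw : Fin 3 → ℝ := ![-(e - 1), e, -1] with hcw
  set c : Fin 3 × Fin q → ℝ := fun p => cw p.1 / q with hcdef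
  have hyabs : ∀ p, abv (y p) = Real.exp (rad p.1 * s - α) := by
    intro p
    rw [hy]
    simp only
    rw [map_mul, map_mul, hgu, mul_one, hα, hκe, ← Real.exp_add]
    congr 1
    ring
  have hradle : ∀ r, (rad r : ℝ) ≤ e := by
    intro r
    fin_cases r
    · simp [hrad]
    · simp [hrad]; linarith
    · simp [hrad]
  have hy1 : ∀ p, abv (y p) ≤ 1 := by
    intro p
    rw [hyabs, Real.exp_le_one_iff]
    have h1 := mul_le_mul_of_nonneg_right (hradle p.1) hs0.le
    linarith
  have hc0 : ∑ p, c p = 0 := by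
    rw [Fintype.sum_prod_type]
    simp only [hcdef, Finset.sum_const, Finset.card_univ, Fintype.card_fin, nsmul_eq_mul]
    rw [Fin.sum_univ_three]
    simp only [hcw, Matrix.cons_val_zero, Matrix.cons_val_one, Matrix.cons_val]
    field_simp
    ring
  have hsumc : ∀ f : Fin 3 → ℝ, ∑ p : Fin 3 × Fin q, c p * f p.1 =
      -(e - 1) * f 0 + e * f 1 - f 2 := by
    intro f
    rw [Fintype.sum_prod_type]
    simp only [hcdef, Finset.sum_const, Finset.card_univ, Fintype.card_fin, nsmul_eq_mul]
    rw [Fin.sum_univ_three]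
    simp only [hcw, Matrix.cons_val_zero, Matrix.cons_val_one, Matrix.cons_val]
    field_simp
    ring
  have hcneg0 : ∀ l, c (0, l) ≤ 0 := by
    intro l
    change -((e : ℝ) - 1) / q ≤ 0
    exact div_nonpos_of_nonpos_of_nonneg (by linarith) hqr.le
  have hcpos1 : ∀ l, 0 ≤ c (1, l) := by
    intro l
    change 0 ≤ (e : ℝ) / q
    exact div_nonneg (by linarith) hqr.le
  have hcneg2 : ∀ l, c (2, l) ≤ 0 := by
    intro l
    change (-1 : ℝ) / q ≤ 0
    exact div_nonpos_of_nonpos_of_nonneg (by norm_num) hqr.le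
  -- the kernel
  set m := n0 + 1 with hm
  set R : ℝ := (m : ℝ) * β with hR
  have hmr : (1 : ℝ) ≤ m := by
    rw [hm]
    push_cast
    linarith [Nat.cast_nonneg (α := ℝ) n0]
  have hRα : α ≤ R := by
    rw [hR]
    nlinarith
  have hR0 : 0 ≤ R := hα0.le.trans hRα
  have hRq : R ≤ q * α := by
    rw [hR, hq, hβα]
    push_cast
    have h1 : (d - 2 : ℝ) * α ≤ d * α := by nlinarith
    have h2 := mul_le_mul_of_nonneg_left h1 (by linarith : (0 : ℝ) ≤ m)
    linarith
  have hdist : ∀ p p' : Fin 3 × Fin q, p ≠ p' → Real.exp (-α) ≤ abv (y p - y p') := by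
    intro p p' hpp
    by_cases h1 : p.1 = p'.1
    · have h2 : p.2 ≠ p'.2 := fun h => hpp (Prod.ext h1 h)
      have h3 : y p - y p' = a * κ⁻¹ ^ (rad p.1) * (g p.2 - g p'.2) := by
        simp only [hy, h1]
        ring
      rw [h3, map_mul, map_mul, hg2 _ _ h2, mul_one, hα, hκe, ← Real.exp_add, Real.exp_le_exp]
      have : (0 : ℝ) ≤ rad p.1 * s := by positivity
      linarith
    · have h2 : rad p.1 ≠ rad p'.1 := by
        have key : ∀ r r' : Fin 3, r ≠ r' → rad r ≠ rad r' := by
          intro r r' hrr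
          fin_cases r <;> fin_cases r' <;> simp [hrad] at hrr ⊢ <;> omega
        exact key _ _ h1
      have hge : ∀ p, Real.exp (-α) ≤ abv (y p) := by
        intro p
        rw [hyabs, Real.exp_le_exp]
        have : (0 : ℝ) ≤ rad p.1 * s := by positivity
        linarith
      rcases lt_or_gt_of_ne h2 with h3 | h3
      · have h4 : abv (y p) < abv (y p') := by
          rw [hyabs, hyabs, Real.exp_lt_exp]
          have : (rad p.1 : ℝ) * s < rad p'.1 * s :=
            mul_lt_mul_of_pos_right (by exact_mod_cast h3) hs0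
          linarith
        rw [abv.map_sub, aux_sub_eq abv hna h4]
        exact hge p'
      · have h4 : abv (y p') < abv (y p) := by
          rw [hyabs, hyabs, Real.exp_lt_exp]
          have : (rad p'.1 : ℝ) * s < rad p.1 * s :=
            mul_lt_mul_of_pos_right (by exact_mod_cast h3) hs0
          linarith
        rw [aux_sub_eq abv hna h4]
        exact hge p
  have hK1 : ∀ p p', kk abv R (y p) (y p') ≤ α + if p' = p then R else 0 := by
    intro p p'
    split_ifs with h
    · have := kk_le abv R (y p) (y p')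
      linarith
    · have h1 := hdist p p' (Ne.symm h)
      have h2 : y p ≠ y p' := by
        intro h3
        rw [h3, sub_self, map_zero] at h1
        exact absurd (Real.exp_pos (-α)) (not_lt.mpr h1)
      refine (kk_le_log abv R h2).trans ?_
      have h3 := Real.log_le_log (Real.exp_pos _) h1
      rw [Real.log_exp] at h3
      linarith
  have hQyy : ∑ p, ∑ p', c p * c p' * kk abv R (y p) (y p') ≤ 8 * d ^ 2 * α := by
    have h1 : ∀ p p', c p * c p' * kk abv R (y p) (y p') ≤
        |c p| * |c p'| * (α + if p' = p then R else 0) := by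
      intro p p'
      have h2 : 0 ≤ kk abv R (y p) (y p') := kk_nonneg abv hna R hR0 (hy1 p) (hy1 p')
      calc c p * c p' * kk abv R (y p) (y p') ≤ |c p| * |c p'| * kk abv R (y p) (y p') := by
            refine mul_le_mul_of_nonneg_right ?_ h2
            rw [← abs_mul]
            exact le_abs_self _
        _ ≤ _ := mul_le_mul_of_nonneg_left (hK1 p p') (by positivity)
    have h2 : ∑ p, ∑ p', |c p| * |c p'| * (α + if p' = p then R else 0) =
        α * (∑ p, |c p|) ^ 2 + R * ∑ p, |c p| ^ 2 := by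
      have h3 : ∀ p, ∑ p', |c p| * |c p'| * (α + if p' = p then R else 0) =
          α * |c p| * (∑ p', |c p'|) + R * |c p| ^ 2 := by
        intro p
        simp only [mul_add, Finset.sum_add_distrib, mul_ite, mul_zero]
        rw [Finset.sum_ite_eq' Finset.univ p, if_pos (Finset.mem_univ p), Finset.mul_sum]
        congr 1
        · exact Finset.sum_congr rfl fun p' _ => by ring
        · ring
      rw [Finset.sum_congr rfl fun p _ => h3 p, Finset.sum_add_distrib, ← Finset.mul_sum,
        ← Finset.sum_mul, ← Finset.mul_sum]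
      ring
    have habs : ∀ p : Fin 3 × Fin q, |c p| = |cw p.1| / q := by
      intro p
      rw [hcdef]
      simp only
      rw [abs_div, abs_of_pos hqr]
    have hcw0 : |cw 0| = e - 1 := by
      change |-((e : ℝ) - 1)| = e - 1
      rw [abs_neg, abs_of_nonneg (by linarith)]
    have hcw1 : |cw 1| = e := by
      change |(e : ℝ)| = e
      rw [abs_of_nonneg (by linarith)]
    have hcw2 : |cw 2| = 1 := by
      change |(-1 : ℝ)| = 1
      norm_num
    have h3 : ∑ p, |c p| = 2 * e := by
      rw [Finset.sum_congr rfl fun p _ => habs p, Fintype.sum_prod_type]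
      simp only [Finset.sum_const, Finset.card_univ, Fintype.card_fin, nsmul_eq_mul]
      rw [Fin.sum_univ_three, hcw0, hcw1, hcw2]
      field_simp
      ring
    have h4 : ∑ p, |c p| ^ 2 = ((e - 1) ^ 2 + e ^ 2 + 1) / q := by
      rw [Finset.sum_congr rfl fun p _ => by rw [habs p], Fintype.sum_prod_type]
      simp only [Finset.sum_const, Finset.card_univ, Fintype.card_fin, nsmul_eq_mul]
      rw [Fin.sum_univ_three, hcw0, hcw1, hcw2]
      field_simp
    refine (Finset.sum_le_sum fun p _ => Finset.sum_le_sum fun p' _ => h1 p p').trans ?_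
    rw [h2, h3, h4]
    have h5 : R * (((e - 1) ^ 2 + e ^ 2 + 1) / q) ≤ α * ((e - 1) ^ 2 + e ^ 2 + 1) := by
      rw [← mul_div_assoc, div_le_iff₀ hqr]
      have h6 : (0 : ℝ) ≤ (e - 1) ^ 2 + e ^ 2 + 1 := by positivity
      have h7 := mul_le_mul_of_nonneg_right hRq h6
      linarith
    have h6 : (2 * (e : ℝ)) ^ 2 + ((e - 1) ^ 2 + e ^ 2 + 1) ≤ 8 * d ^ 2 := by nlinarith
    have h7 := mul_le_mul_of_nonneg_left h6 hα0.le
    linarith
  -- the points and the test measure
  have hQx : ∑ i, ∑ p, c p * kk abv R (a * x i) (y p) ≤ 0 := by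
    refine Finset.sum_nonpos fun i _ => ?_
    by_cases h1 : abv (x i) ≤ 1
    · have hX : abv (a * x i) ≤ Real.exp (-α) := by
        rw [map_mul, hα]
        exact mul_le_of_le_one_right (Real.exp_pos _).le h1
      have h2 : ∀ p : Fin 3 × Fin q, c p * kk abv R (a * x i) (y p) ≤
          c p * (fun r : Fin 3 => α - rad r * s) p.1 := by
        rintro ⟨r, l⟩
        have hfar : ∀ r : Fin 3, 1 ≤ rad r → kk abv R (a * x i) (y (r, l)) = α - rad r * s := by
          intro r hr
          have h3 : abv (a * x i) < abv (y (r, l)) := by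
            rw [hyabs]
            refine lt_of_le_of_lt hX ?_
            rw [Real.exp_lt_exp]
            have : (0 : ℝ) < rad r * s := mul_pos (by exact_mod_cast hr) hs0
            linarith
          have h4 : abv (a * x i - y (r, l)) = Real.exp (rad r * s - α) := by
            rw [abv.map_sub, aux_sub_eq abv hna h3, hyabs]
          have h5 : a * x i ≠ y (r, l) := by
            intro h6
            rw [h6] at h3
            exact lt_irrefl _ h3
          rw [kk_eq_log abv R h5, h4, Real.log_exp]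
          · ring
          · rw [h4, Real.log_exp]
            have : (0 : ℝ) ≤ rad r * s := by positivity
            linarith
        fin_cases r
        · refine mul_le_mul_of_nonpos_left ?_ (hcneg0 l)
          have h3 : rad 0 = 0 := by simp [hrad]
          have h4 : α ≤ kk abv R (a * x i) (y (0, l)) := by
            refine le_kk abv hRα ?_
            refine (aux_sub_le abv hna _ _).trans (max_le hX ?_)
            rw [hyabs, h3]
            simp
          simpa [h3] using h4
        · refine le_of_eq ?_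
          congr 1
          exact hfar 1 (by simp [hrad])
        · refine le_of_eq ?_
          congr 1
          exact hfar 2 (by simp [hrad]; omega)
      refine (Finset.sum_le_sum fun p _ => h2 p).trans ?_
      rw [hsumc (fun r : Fin 3 => α - rad r * s)]
      have r0 : (rad 0 : ℝ) = 0 := by simp [hrad]
      have r1 : (rad 1 : ℝ) = 1 := by simp [hrad]
      have r2 : (rad 2 : ℝ) = e := by simp [hrad]
      rw [r0, r1, r2]
      linarith
    · push Not at h1
      have hX : Real.exp (w / N - α) ≤ abv (a * x i) := by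
        rw [map_mul, hα, sub_eq_add_neg, Real.exp_add, mul_comm]
        exact mul_le_mul_of_nonneg_left (hx i h1) (Real.exp_pos _).le
      have h2 : ∀ p, kk abv R (a * x i) (y p) = min R (-Real.log (abv (a * x i))) := by
        intro p
        have h3 : abv (y p) < abv (a * x i) := by
          rw [hyabs]
          refine lt_of_lt_of_le ?_ hX
          rw [Real.exp_lt_exp]
          have h4 := mul_le_mul_of_nonneg_right (hradle p.1) hs0.le
          linarith
        have h5 : a * x i ≠ y p := by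
          intro h6
          rw [h6] at h3
          exact lt_irrefl _ h3
        rw [kk_eq_min abv R h5, aux_sub_eq abv hna h3]
      rw [Finset.sum_congr rfl fun p _ => by rw [h2 p], ← Finset.sum_mul, hc0, zero_mul]
  -- the values
  have hval : ∑ p, c p * Real.log (max (abv ((qf G bt)^[m] (y p))) 1) ≤ -V := by
    have h1 : ∀ p : Fin 3 × Fin q, c p * Real.log (max (abv ((qf G bt)^[m] (y p))) 1) ≤
        c p * (![0, V, d * V + β] : Fin 3 → ℝ) p.1 := by
      rintro ⟨r, l⟩
      fin_cases r
      · refine le_of_eq ?_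
        congr 1
        change Real.log (max (abv ((qf G bt)^[m] (a * κ⁻¹ ^ (rad 0) * g l))) 1) = 0
        have h3 : rad 0 = 0 := by simp [hrad]
        rw [h3, pow_zero, mul_one, hiter, map_mul, max_eq_right, Real.log_one]
        exact mul_le_one₀ ha1 (abv.nonneg _) (eval_iter_le hna hc (hgu l).le m)
      · refine mul_le_mul_of_nonneg_left ?_ (hcpos1 l)
        change Real.log (max (abv ((qf G bt)^[m] (a * κ⁻¹ ^ (rad 1) * g l))) 1) ≤ V
        have h3 : rad 1 = 1 := by simp [hrad]
        have h4 : abv ((qf G bt) (a * κ⁻¹ ^ (rad 1) * g l)) ≤ Real.exp (e * s - α) := by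
          rw [h3, mul_assoc]
          have h5 := hiter 1 (κ⁻¹ ^ 1 * g l)
          simp only [Function.iterate_one] at h5
          rw [h5, map_mul, hα, sub_eq_add_neg, Real.exp_add, mul_comm]
          refine mul_le_mul_of_nonneg_right ?_ (Real.exp_pos _).le
          refine eval_le_exp hna hF hc hs0.le hc2 hds ?_
          rw [map_mul, hgu, mul_one, hκe]
          simp
        have h5 := hsup _ h4
        rw [← Function.iterate_succ_apply] at h5
        have h6 : Real.log (max (abv ((qf G bt)^[m] (a * κ⁻¹ ^ (rad 1) * g l))) 1) ≤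
            Real.log (Real.exp V) :=
          Real.log_le_log (lt_max_of_lt_right one_pos) (max_le h5 (Real.one_le_exp hV0.le))
        rwa [Real.log_exp] at h6
      · refine mul_le_mul_of_nonpos_left ?_ (hcneg2 l)
        change d * V + β ≤ Real.log (max (abv ((qf G bt)^[m] (a * κ⁻¹ ^ (rad 2) * g l))) 1)
        have h3 : rad 2 = e := by simp [hrad]
        have h4 : abv ((qf G bt)^[n0] (a * κ⁻¹ ^ (rad 2) * g l)) = Real.exp V := by
          rw [h3, hρ, hVexp]
          congr 1
          exact Finset.prod_congr rfl fun u _ => hgρ l u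
        have h5 : 1 < abv ((qf G bt)^[n0] (a * κ⁻¹ ^ (rad 2) * g l)) := by
          rw [h4]
          exact Real.one_lt_exp_iff.mpr hV0
        obtain ⟨h6, h7⟩ := qf_out hna hd1 hGd hGl hGc hbt0 hbt1 h5
        rw [← Function.iterate_succ_apply' (qf G bt) n0] at h6 h7
        rw [max_eq_left h7.le, h6, h4, Real.log_div (by positivity) (abv.pos hbt0).ne',
          Real.log_pow, Real.log_exp, hβ]
        linarith
    refine (Finset.sum_le_sum fun p _ => h1 p).trans ?_
    rw [hsumc]
    simp only [Matrix.cons_val_zero, Matrix.cons_val_one, Matrix.cons_val]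
    have h2 : (e : ℝ) * V + V ≤ d * V := by nlinarith
    linarith
  -- the end
  have hcore := core hna gen hd1 hGd hGl hGc hbt0 hbt1 m (fun i => a * x i)
    (fun i j h => hinj (mul_left_cancel₀ ha0 h)) (fun i => hbd i 0)
    (fun i => by rw [hiter]; exact hbd i m) y hy1 c hc0 (1 / (8 * (d : ℝ) ^ (t + 3)))
  rw [← hβ, ← hR, energy_scale ha0 hla x hinj] at hcore
  have hRq' : R ≤ m * d * α := by
    refine hRq.trans_eq ?_
    rw [hq]
    push_cast
    ring
  exact num_A hd3 (by rw [hm, hn0]) (Nat.cast_nonneg T) hα0 hβα hRq' hQx hQyy hval hV1 hcore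

end

end Pool.Agent.QPol
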